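import Pool.Agent.Q4.HC.SupNorm

/-!
# Change of variables on the circle for Möbius transformations
-/

open Filter Topology ComplexConjugate MeasureTheory

namespace Q4.HC

/-- The measure on `ℝ / ℤ` used in Mathlib for Fourier series on tori. -/
noncomputable local instance instMS' : MeasureSpace UnitAddCircle := ⟨AddCircle.haarAddCircle⟩

local instance instHaar' : Measure.IsAddHaarMeasure (volume : Measure UnitAddCircle) :=
  inferInstanceAs (Measure.IsAddHaarMeasure AddCircle.haarAddCircle)

local instance instProb' : IsProbabilityMeasure (volume : Measure UnitAddCircle) :=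
  inferInstanceAs (IsProbabilityMeasure AddCircle.haarAddCircle)

/-- The mean value. -/
noncomputable def II : C(X 1, ℂ) →L[ℂ] ℂ :=
  LinearMap.mkContinuous
    { toFun := fun f => ∫ x, f x
      map_add' := fun f g => integral_add (f.continuous.integrable_of_hasCompactSupport
        (HasCompactSupport.of_compactSpace _)) (g.continuous.integrable_of_hasCompactSupport
        (HasCompactSupport.of_compactSpace _))
      map_smul' := fun c f => integral_const_mul c _ } 1 (fun f => by
        have h1 : ‖∫ x, f x‖ ≤ ‖f‖ * (volume : Measure (X 1)).real Set.univ :=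
          norm_integral_le_of_norm_le_const (Eventually.of_forall fun x => f.norm_coe_le_norm x)
        rw [probReal_univ, mul_one] at h1
        rw [one_mul]
        exact h1)

theorem II_apply (f : C(X 1, ℂ)) : II f = ∫ x, f x := rfl

theorem II_star (f : C(X 1, ℂ)) : II (star f) = conj (II f) := by
  rw [II_apply, II_apply, ← integral_conj]
  rfl

theorem II_chi (m : Fin 1 → ℤ) : II (chi m) = if m = 0 then 1 else 0 := by
  have h1 := (orthonormal_iff_ite.1 (UnitAddTorus.orthonormal_mFourier (d := Fin 1))) 0 m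
  rw [ContinuousMap.inner_toLp] at h1
  rw [II_apply]
  have h2 : (∫ x : X 1, chi m x) = ∫ x : X 1, chi m x * conj (chi 0 x) := by
    congr 1
    funext x
    rw [chi_zero]
    simp
  rw [h2]
  convert! h1 using 1
  simp only [eq_comm]

/-- The coordinate function. -/
noncomputable abbrev U1 : C(X 1, ℂ) := U 0

theorem U1_pow (n : ℕ) : U1 ^ n = chi (Pi.single 0 (n : ℤ)) := by
  induction n with
  | zero =>
    rw [pow_zero, Nat.cast_zero, Pi.single_zero, chi_zero]
  | succ n ih =>
    rw [pow_succ, ih, Nat.cast_succ, Pi.single_add, chi_add]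
    rfl

theorem II_pow (n : ℕ) : II (U1 ^ n) = if n = 0 then 1 else 0 := by
  rw [U1_pow, II_chi]
  have : (Pi.single 0 (n : ℤ) : Fin 1 → ℤ) = 0 ↔ n = 0 := by
    rw [Pi.single_eq_zero_iff]
    exact Nat.cast_eq_zero
  simp only [this]

theorem II_aeval (P : Polynomial ℂ) : II (Polynomial.aeval U1 P) = P.coeff 0 := by
  rw [Polynomial.aeval_eq_sum_range, map_sum]
  simp only [map_smul, II_pow, smul_eq_mul]
  rw [Finset.sum_eq_single 0]
  · simp
  · intro n _ hn
    simp [hn]
  · intro h
    simp at h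

/-- The disc algebra. -/
noncomputable def DA : Subalgebra ℂ C(X 1, ℂ) := (Algebra.adjoin ℂ {U1}).topologicalClosure

theorem II_mul {f g : C(X 1, ℂ)} (hf : f ∈ DA) (hg : g ∈ DA) : II (f * g) = II f * II g := by
  have h0 : ∀ f ∈ Algebra.adjoin ℂ {U1}, ∀ g ∈ Algebra.adjoin ℂ {U1},
      II (f * g) = II f * II g := by
    intro f hf g hg
    rw [Algebra.adjoin_singleton_eq_range_aeval] at hf hg
    obtain ⟨P, rfl⟩ := hf
    obtain ⟨Q, rfl⟩ := hg
    change II (Polynomial.aeval U1 P * Polynomial.aeval U1 Q) =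
      II (Polynomial.aeval U1 P) * II (Polynomial.aeval U1 Q)
    rw [← map_mul, II_aeval, II_aeval, II_aeval, Polynomial.mul_coeff_zero]
  have h1 : ∀ f ∈ Algebra.adjoin ℂ {U1}, ∀ g ∈ DA, II (f * g) = II f * II g := by
    intro f hf
    have hc : IsClosed {g | II (f * g) = II f * II g} :=
      isClosed_eq (II.continuous.comp (continuous_const.mul continuous_id))
        (continuous_const.mul II.continuous)
    exact fun g hg => closure_minimal (h0 f hf) hc hg
  have hc : IsClosed {f | II (f * g) = II f * II g} :=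
    isClosed_eq (II.continuous.comp (continuous_id.mul continuous_const))
      (II.continuous.mul continuous_const)
  exact closure_minimal (fun f hf => h1 f hf g hg) hc hf

theorem U1_mem : U1 ∈ DA := subset_closure (Algebra.subset_adjoin rfl)

theorem norm_U1 : ‖U1‖ = 1 := UnitAddTorus.mFourier_norm

theorem exists_inv {t : ℂ} (ht : ‖t‖ < 1) :
    ∃ a ∈ DA, a * (1 + algebraMap ℂ _ t * U1) = 1 := by
  set x : C(X 1, ℂ) := -(algebraMap ℂ _ t * U1) with hx
  have hxn : ‖x‖ < 1 := by
    rw [hx, norm_neg]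
    refine (norm_mul_le _ _).trans_lt ?_
    rw [norm_U1, mul_one, norm_algebraMap']
    exact ht
  refine ⟨∑' n : ℕ, x ^ n, ?_, ?_⟩
  · have hs : HasSum (fun n : ℕ => x ^ n) (∑' n : ℕ, x ^ n) :=
      (summable_geometric_of_norm_lt_one hxn).hasSum
    have hmem : x ∈ DA := DA.neg_mem (DA.mul_mem (DA.algebraMap_mem t) U1_mem)
    have hcl : IsClosed (DA : Set C(X 1, ℂ)) := Subalgebra.isClosed_topologicalClosure _
    exact hcl.mem_of_tendsto hs (Eventually.of_forall fun s =>
      DA.sum_mem fun n _ => DA.pow_mem hmem n)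
  · have h1 := geom_series_mul_neg x hxn
    have h2 : 1 + algebraMap ℂ _ t * U1 = 1 - x := by rw [hx, sub_neg_eq_add]
    rw [h2]
    exact h1

theorem al_ne (g : SL) : al g ≠ 0 := by
  intro h
  have h1 := al_be g
  rw [h, zero_mul, zero_sub, Complex.mul_conj] at h1
  have h2 := congrArg Complex.re h1
  simp at h2
  have := Complex.normSq_nonneg (be g)
  linarith

theorem norm_al_be (g : SL) : ‖al g‖ ^ 2 - ‖be g‖ ^ 2 = 1 := by
  have h1 := al_be g
  rw [Complex.mul_conj, Complex.mul_conj, Complex.normSq_eq_norm_sq, Complex.normSq_eq_norm_sq] at h1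
  exact_mod_cast h1

theorem norm_be_lt (g : SL) : ‖be g‖ < ‖al g‖ := by
  have h1 := norm_al_be g
  by_contra h
  push Not at h
  have := norm_nonneg (al g)
  nlinarith

theorem rep_U1_mem (g : G 1) : rep 1 g U1 ∈ DA ∧ II (rep 1 g U1) = -be (g 0) / al (g 0) := by
  have hal := al_ne (g 0)
  set t : ℂ := -(conj (be (g 0)) / al (g 0)) with ht
  have htn : ‖t‖ < 1 := by
    rw [ht, norm_neg, norm_div, RCLike.norm_conj, div_lt_one (norm_pos_iff.2 hal)]
    exact norm_be_lt _
  obtain ⟨a, ha, hat⟩ := exists_inv htn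
  have h1 := rep_U g 0
  have h2 : (algebraMap ℂ C(X 1, ℂ) (al (g 0)) - algebraMap ℂ _ (conj (be (g 0))) * U1) =
      algebraMap ℂ _ (al (g 0)) * (1 + algebraMap ℂ _ t * U1) := by
    rw [mul_add, mul_one, ← mul_assoc, ← map_mul]
    have : al (g 0) * t = -conj (be (g 0)) := by rw [ht]; field_simp
    rw [this, map_neg]
    ring
  have h3 : rep 1 g U1 = (algebraMap ℂ _ (conj (al (g 0))) * U1 - algebraMap ℂ _ (be (g 0))) *
      (algebraMap ℂ _ (al (g 0))⁻¹ * a) := by
    have h4 : algebraMap ℂ C(X 1, ℂ) (al (g 0)) * algebraMap ℂ _ (al (g 0))⁻¹ = 1 := by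
      rw [← map_mul, mul_inv_cancel₀ hal, map_one]
    rw [← h1, h2]
    linear_combination (-(rep 1 g U1) * (a * (1 + algebraMap ℂ _ t * U1))) * h4 -
      rep 1 g U1 * hat
  have hmem1 : algebraMap ℂ _ (conj (al (g 0))) * U1 - algebraMap ℂ _ (be (g 0)) ∈ DA :=
    DA.sub_mem (DA.mul_mem (DA.algebraMap_mem _) U1_mem) (DA.algebraMap_mem _)
  have hmem : rep 1 g U1 ∈ DA := by
    rw [h3]
    exact DA.mul_mem hmem1 (DA.mul_mem (DA.algebraMap_mem _) ha)
  refine ⟨hmem, ?_⟩
  have hII1 : ∀ z : ℂ, II (algebraMap ℂ _ z) = z := by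
    intro z
    rw [Algebra.algebraMap_eq_smul_one, map_smul]
    have : II (1 : C(X 1, ℂ)) = 1 := by
      have := II_pow 0
      rwa [pow_zero, if_pos rfl] at this
    rw [this, smul_eq_mul, mul_one]
  have hIIU : II U1 = 0 := by
    have := II_pow 1
    rwa [pow_one, if_neg one_ne_zero] at this
  have h5 := congrArg II h1
  have hmem2 : algebraMap ℂ C(X 1, ℂ) (al (g 0)) - algebraMap ℂ _ (conj (be (g 0))) * U1 ∈ DA :=
    DA.sub_mem (DA.algebraMap_mem _) (DA.mul_mem (DA.algebraMap_mem _) U1_mem)
  rw [II_mul hmem hmem2, map_sub, map_sub, II_mul (DA.algebraMap_mem _) U1_mem,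
    II_mul (DA.algebraMap_mem _) U1_mem, hII1, hII1, hII1, hII1, hIIU, mul_zero, mul_zero, sub_zero,
    zero_sub] at h5
  rw [eq_div_iff hal, h5]

theorem II_algebraMap (z : ℂ) : II (algebraMap ℂ _ z) = z := by
  rw [Algebra.algebraMap_eq_smul_one, map_smul]
  have : II (1 : C(X 1, ℂ)) = 1 := by
    have := II_pow 0
    rwa [pow_zero, if_pos rfl] at this
  rw [this, smul_eq_mul, mul_one]

theorem II_U1 : II U1 = 0 := by
  have := II_pow 1
  rwa [pow_one, if_neg one_ne_zero] at this

theorem II_rep_pow (g : G 1) (n : ℕ) : II (rep 1 g (U1 ^ n)) = (-be (g 0) / al (g 0)) ^ n := by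
  induction n with
  | zero =>
    rw [pow_zero, pow_zero, rep_one]
    have := II_algebraMap 1
    rwa [map_one] at this
  | succ n ih =>
    have hm : ∀ n : ℕ, rep 1 g (U1 ^ n) ∈ DA := by
      intro n
      induction n with
      | zero => rw [pow_zero, rep_one]; exact DA.one_mem
      | succ n ih => rw [pow_succ, rep_mul]; exact DA.mul_mem ih (rep_U1_mem g).1
    rw [pow_succ, rep_mul, II_mul (hm n) (rep_U1_mem g).1, ih, (rep_U1_mem g).2, pow_succ]

/-- The square root of the Poisson kernel. -/
theorem exists_poisson (g : SL) : ∃ a ∈ DA, a * (algebraMap ℂ _ (conj (al g)) +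
    algebraMap ℂ _ (conj (be g)) * U1) = 1 := by
  have hal : conj (al g) ≠ 0 := by
    rw [Ne, map_eq_zero]
    exact al_ne g
  set t : ℂ := conj (be g) / conj (al g) with ht
  have htn : ‖t‖ < 1 := by
    rw [ht, norm_div, RCLike.norm_conj, RCLike.norm_conj, div_lt_one (norm_pos_iff.2 (al_ne g))]
    exact norm_be_lt _
  obtain ⟨a, ha, hat⟩ := exists_inv htn
  refine ⟨algebraMap ℂ _ (conj (al g))⁻¹ * a, DA.mul_mem (DA.algebraMap_mem _) ha, ?_⟩
  have h2 : (algebraMap ℂ C(X 1, ℂ) (conj (al g)) + algebraMap ℂ _ (conj (be g)) * U1) =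
      algebraMap ℂ _ (conj (al g)) * (1 + algebraMap ℂ _ t * U1) := by
    rw [mul_add, mul_one, ← mul_assoc, ← map_mul]
    have : conj (al g) * t = conj (be g) := by rw [ht]; field_simp
    rw [this]
  have h4 : algebraMap ℂ C(X 1, ℂ) (conj (al g)) * algebraMap ℂ _ (conj (al g))⁻¹ = 1 := by
    rw [← map_mul, mul_inv_cancel₀ hal, map_one]
  rw [h2]
  linear_combination (a * (1 + algebraMap ℂ _ t * U1)) * h4 + hat

/-- The square root of the Poisson kernel. -/
noncomputable def pa (g : SL) : C(X 1, ℂ) := (exists_poisson g).choose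

theorem pa_mem (g : SL) : pa g ∈ DA := (exists_poisson g).choose_spec.1

theorem pa_mul (g : SL) : pa g * (algebraMap ℂ _ (conj (al g)) +
    algebraMap ℂ _ (conj (be g)) * U1) = 1 := (exists_poisson g).choose_spec.2

theorem pa_star_mul (g : SL) : star (pa g) * (algebraMap ℂ _ (al g) +
    algebraMap ℂ _ (be g) * star U1) = 1 := by
  have h := congrArg star (pa_mul g)
  rw [star_mul, star_add, star_mul, ← algebraMap_star_comm, ← algebraMap_star_comm, star_one] at h
  change ((algebraMap ℂ _ (conj (conj (al g)))) + star U1 * algebraMap ℂ _ (conj (conj (be g)))) *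
    star (pa g) = 1 at h
  rw [Complex.conj_conj, Complex.conj_conj] at h
  linear_combination h

/-- The Poisson kernel. -/
noncomputable def PP (g : SL) : C(X 1, ℂ) := pa g * star (pa g)

theorem II_pow_PP (g : SL) (n : ℕ) : II (U1 ^ n * PP g) = (-be g / al g) ^ n := by
  have hal := al_ne g
  have hUs : U1 * star U1 = 1 := U_star 0
  -- the recursion
  have hrec : ∀ n : ℕ, al g * II (U1 ^ (n + 1) * PP g) + be g * II (U1 ^ n * PP g) = 0 := by
    intro n
    have h1 : algebraMap ℂ _ (al g) * (U1 ^ (n + 1) * PP g) +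
        algebraMap ℂ _ (be g) * (U1 ^ n * PP g) = U1 ^ (n + 1) * pa g := by
      rw [PP]
      linear_combination (U1 ^ (n + 1) * pa g) * pa_star_mul g -
        (algebraMap ℂ C(X 1, ℂ) (be g) * U1 ^ n * pa g * star (pa g)) * hUs
    have h2 := congrArg II h1
    rw [← Algebra.smul_def, ← Algebra.smul_def, map_add, map_smul, map_smul,
      II_mul (DA.pow_mem U1_mem _) (pa_mem g), II_pow, if_neg (Nat.succ_ne_zero n), zero_mul,
      smul_eq_mul, smul_eq_mul] at h2
    exact h2
  -- the value at zero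
  have hs0 : II (PP g) = 1 := by
    have hIa : II (pa g) * conj (al g) = 1 := by
      have h1 := congrArg II (pa_mul g)
      rw [II_mul (pa_mem g) (DA.add_mem (DA.algebraMap_mem _)
        (DA.mul_mem (DA.algebraMap_mem _) U1_mem)), map_add, II_mul (DA.algebraMap_mem _) U1_mem,
        II_algebraMap, II_U1, mul_zero, add_zero] at h1
      rw [h1]
      have := II_algebraMap 1
      rwa [map_one] at this
    have h1 : algebraMap ℂ _ (al g) * PP g + algebraMap ℂ _ (be g) * (star U1 * PP g) = pa g := by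
      rw [PP]
      linear_combination (pa g) * pa_star_mul g
    have h2 := congrArg II h1
    rw [← Algebra.smul_def, ← Algebra.smul_def, map_add, map_smul, map_smul, smul_eq_mul,
      smul_eq_mul] at h2
    have hPs : star (PP g) = PP g := by
      rw [PP, star_mul, star_star]
    have h3 : II (star U1 * PP g) = conj (II (U1 * PP g)) := by
      rw [← II_star, star_mul, hPs, mul_comm]
    have h4 : conj (II (PP g)) = II (PP g) := by rw [← II_star, hPs]
    have h5 := hrec 0
    rw [zero_add, pow_one, pow_zero, one_mul] at h5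
    have h6 : conj (al g) * conj (II (U1 * PP g)) + conj (be g) * II (PP g) = 0 := by
      have h8 := congrArg conj h5
      have h9 : conj (al g * II (U1 * PP g) + be g * II (PP g)) =
          conj (al g) * conj (II (U1 * PP g)) + conj (be g) * conj (II (PP g)) := by
        rw [RingHom.map_add, RingHom.map_mul, RingHom.map_mul]
      rw [h9, h4, RingHom.map_zero] at h8
      exact h8
    rw [h3] at h2
    have h7 := al_be g
    linear_combination (-(II (PP g))) * h7 + (conj (al g)) * h2 - be g * h6 + hIa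
  induction n with
  | zero => rw [pow_zero, pow_zero, one_mul, hs0]
  | succ n ih =>
    have h1 := hrec n
    rw [ih] at h1
    have h2 : II (U1 ^ (n + 1) * PP g) = -(be g * (-be g / al g) ^ n) / al g := by
      rw [eq_div_iff hal]
      linear_combination h1
    have h3 : (-be g / al g) ^ (n + 1) = -(be g * (-be g / al g) ^ n) / al g := by
      rw [pow_succ]
      ring
    rw [h2, h3]

theorem II_rep (g : G 1) (f : C(X 1, ℂ)) : II (rep 1 g f) = II (f * PP (g 0)) := by
  let Φ : C(X 1, ℂ) →L[ℂ] ℂ := II ∘L rep 1 g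
  let Ψ : C(X 1, ℂ) →L[ℂ] ℂ := II ∘L (ContinuousLinearMap.mul ℂ C(X 1, ℂ)).flip (PP (g 0))
  have hpos : ∀ n : ℕ, Φ (U1 ^ n) = Ψ (U1 ^ n) := by
    intro n
    change II (rep 1 g (U1 ^ n)) = II (U1 ^ n * PP (g 0))
    rw [II_rep_pow, II_pow_PP]
  have hstar : ∀ f, Φ (star f) = conj (Φ f) ∧ Ψ (star f) = conj (Ψ f) := by
    intro f
    constructor
    · change II (rep 1 g (star f)) = conj (II (rep 1 g f))
      rw [rep_star, II_star]
    · change II (star f * PP (g 0)) = conj (II (f * PP (g 0)))
      rw [← II_star, star_mul, mul_comm, PP, star_mul, star_star]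
  have hchi : ∀ m : Fin 1 → ℤ, Φ (chi m) = Ψ (chi m) := by
    intro m
    have hm : m = Pi.single 0 (m 0) := by
      funext i
      rw [Subsingleton.elim i 0, Pi.single_eq_same]
    obtain ⟨n, hn | hn⟩ := (m 0).eq_nat_or_neg
    · rw [hm, hn, ← U1_pow, hpos]
    · rw [hm, hn, Pi.single_neg, chi_neg, ← U1_pow, (hstar _).1, (hstar _).2, hpos]
  have h := ContinuousLinearMap.ext_on (f := Φ) (g := Ψ) (s := Set.range chi) (by
    rw [dense_iff_closure_eq, ← Submodule.topologicalClosure_coe,
      UnitAddTorus.span_mFourier_closure_eq_top]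
    rfl) (by rintro _ ⟨m, rfl⟩; exact hchi m)
  exact DFunLike.congr_fun h f

end Q4.HC
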