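import Pool.Agent.Q4.HC.Defs

/-!
# The Sobolev pseudometric on classes of norms
-/

open Filter Topology
open scoped NNReal ENNReal

namespace Q4.HC

/-- A weight on `G`: a positive, submultiplicative and locally bounded function. -/
structure IsWeightFunction {r : ℕ} (w : G r → ℝ) : Prop where
  pos : ∀ g, 0 < w g
  submul : ∀ g h, w (g * h) ≤ w g * w h
  locallyBounded : ∀ g, ∃ C : ℝ, ∀ᶠ h in 𝓝 g, w h ≤ C

/-- The maximal compact subgroup `K = SO(2)^r` of `G = SL(2, ℝ)^r`. -/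
def KK (r : ℕ) : Set (G r) :=
  {k | ∀ i, (k i : Matrix (Fin 2) (Fin 2) ℝ) * (k i : Matrix (Fin 2) (Fin 2) ℝ).transpose = 1}

variable {r : ℕ} {V : Type} [AddCommGroup V] [Module ℂ V]

/-- `x` is a `K`-finite vector of the representation `π`. -/
def IsKFinite {E : Type} [NormedAddCommGroup E] [NormedSpace ℂ E]
    (π : G r →* (E →L[ℂ] E)) (x : E) : Prop :=
  ∃ W : Submodule ℂ E, FiniteDimensional ℂ W ∧ x ∈ W ∧ ∀ k ∈ KK r, ∀ y ∈ W, π k y ∈ W

/-- `p` belongs to `Norm(V, w)`: the completion `E` of `(V, p)` carries a continuous representation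
of `G` whose space of `K`-finite vectors is `V` (with its action of `𝔤` and `K`), and
`p (g • v) ≤ C w(g) p(v)` for some `C > 0` and all `g ∈ G`, `v ∈ V`. -/
def InNorm (D : Ops r V) (w : G r → ℝ) (p : V → ℝ) : Prop :=
  ∃ (E : Type) (_ : NormedAddCommGroup E) (_ : NormedSpace ℂ E) (_ : CompleteSpace E)
    (π : G r →* (E →L[ℂ] E)) (j : V →ₗ[ℂ] E), IsGlobalization D p π j ∧
      (∀ x, IsKFinite π x ↔ x ∈ Set.range j) ∧
      ∃ C : ℝ, 0 < C ∧ ∀ g v, ‖π g (j v)‖ ≤ C * w g * p v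

/-- The relation `p ≲ q`. -/
def Dominated (p q : V → ℝ) : Prop := ∃ C : ℝ, 0 < C ∧ ∀ v, p v ≤ C * q v

/-- The relation `p ∼ q`, that is `[p] = [q]`. -/
def NormEquiv (p q : V → ℝ) : Prop := Dominated p q ∧ Dominated q p

/-- The infimum `d_→ ([p], [q])` of all `s ≥ 0` with `p ≲ q_s`, where `q_s v = q (D_s v)`. -/
noncomputable def dArrow (D : Ops r V) (c : ℝ) (p q : V → ℝ) : ℝ≥0∞ :=
  ⨅ s ∈ {s : ℝ≥0 | ∃ T : V →ₗ[ℂ] V, IsSobolev D c s T ∧ Dominated p fun v => q (T v)},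
    (s : ℝ≥0∞)

/-- The Sobolev pseudometric. -/
noncomputable def sobDist (D : Ops r V) (c : ℝ) (p q : V → ℝ) : ℝ≥0∞ :=
  max (dArrow D c p q) (dArrow D c q p)

end Q4.HC
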