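import Pool.Agent.Q4.HCB.KFin

/-!
# Two inequivalent norms at distance zero
-/

open Filter Topology ComplexConjugate MeasureTheory
open scoped NNReal ENNReal

namespace Q4.HC

attribute [local instance] instMS' instHaar' instProb'

/-! ### Norm estimates -/

/-- The norm on one copy. -/
noncomputable def nn (v : V 1) : ℝ := ‖FF (jj 1 v)‖

theorem nn_nonneg (v : V 1) : 0 ≤ nn v := norm_nonneg _

theorem nn_add (v w : V 1) : nn (v + w) ≤ nn v + nn w := by
  rw [nn, map_add, map_add]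
  exact norm_add_le _ _

theorem nn_sub (v w : V 1) : nn (v - w) ≤ nn v + nn w := by
  rw [nn, map_sub, map_sub]
  exact norm_sub_le _ _

theorem nn_sq (v : V 1) : nn v ^ 2 = ∑ m ∈ v.support, ‖v m‖ ^ 2 := by
  have h3 : FF (jj 1 v) = Finsupp.linearCombination ℂ (UnitAddTorus.mFourierLp (d := Fin 1) 2) v := by
    rw [jj, Finsupp.linearCombination_apply, Finsupp.linearCombination_apply, Finsupp.sum,
      Finsupp.sum, map_sum]
    refine Finset.sum_congr rfl fun m _ => ?_
    rw [map_smul]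
    rfl
  have h4 := (UnitAddTorus.orthonormal_mFourier (d := Fin 1)).inner_finsupp_eq_sum_left v v
  rw [← h3, inner_self_eq_norm_sq_to_K, Finsupp.sum] at h4
  have h5 : ∀ m, conj (v m) * v m = ((‖v m‖ ^ 2 : ℝ) : ℂ) := by
    intro m
    rw [mul_comm, Complex.mul_conj, Complex.normSq_eq_norm_sq]
  simp only [h5] at h4
  rw [nn]
  have h6 : ((‖FF (jj 1 v)‖ ^ 2 : ℝ) : ℂ) = ((∑ m ∈ v.support, ‖v m‖ ^ 2 : ℝ) : ℂ) := by
    push_cast at h4 ⊢
    exact h4
  exact_mod_cast h6

theorem nn_le {v w : V 1} {C : ℝ} (hC : 0 ≤ C) (h : ∀ m, ‖v m‖ ≤ C * ‖w m‖) : nn v ≤ C * nn w := by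
  have h1 : ∀ u : V 1, ∀ S : Finset (Fin 1 → ℤ), u.support ⊆ S → nn u ^ 2 = ∑ m ∈ S, ‖u m‖ ^ 2 := by
    intro u S hS
    rw [nn_sq]
    refine Finset.sum_subset hS fun m _ hm => ?_
    rw [Finsupp.notMem_support_iff.1 hm]
    simp
  have h2 : nn v ^ 2 ≤ (C * nn w) ^ 2 := by
    rw [mul_pow, h1 v (v.support ∪ w.support) Finset.subset_union_left,
      h1 w (v.support ∪ w.support) Finset.subset_union_right, Finset.mul_sum]
    refine Finset.sum_le_sum fun m _ => ?_
    rw [← mul_pow]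
    exact pow_le_pow_left₀ (norm_nonneg _) (h m) 2
  exact (sq_le_sq₀ (nn_nonneg _) (mul_nonneg hC (nn_nonneg _))).1 h2

theorem nn_single (m : Fin 1 → ℤ) (z : ℂ) : nn (Finsupp.single m z) = ‖z‖ := by
  rw [nn, jj_single, map_smul, norm_smul]
  have h1 : ‖FF (chi m)‖ = 1 := (UnitAddTorus.orthonormal_mFourier (d := Fin 1)).1 m
  rw [h1, mul_one]

theorem LL_apply (v : V 1) (m : Fin 1 → ℤ) : LL v m = HH (m 0) * v m := by
  have h : Finsupp.lapply m ∘ₗ LL = (HH (m 0) : ℂ) • (Finsupp.lapply m : V 1 →ₗ[ℂ] ℂ) := by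
    refine Finsupp.lhom_ext fun n c => ?_
    change LL (Finsupp.single n c) m = (HH (m 0) : ℂ) • (Finsupp.single n c : V 1) m
    rw [LL_single, Finsupp.single_apply, Finsupp.single_apply]
    split_ifs with hnm
    · rw [hnm, smul_eq_mul, mul_comm]
    · rw [smul_zero]
  exact LinearMap.congr_fun h v

/-- The Sobolev eigenvalue. -/
noncomputable def sv (c s : ℝ) (m : ℤ) : ℝ := (1 + c * ((-2 * m : ℤ) : ℝ) ^ 2) ^ (s / 2)

theorem sob_apply (c s : ℝ) (v : V 1) (m : Fin 1 → ℤ) :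
    sob 1 c s v m = sv c s (m 0) * v m := by
  have h : Finsupp.lapply m ∘ₗ sob 1 c s = (sv c s (m 0) : ℂ) • (Finsupp.lapply m : V 1 →ₗ[ℂ] ℂ) := by
    refine Finsupp.lhom_ext fun n z => ?_
    change sob 1 c s (Finsupp.single n z) m = (sv c s (m 0) : ℂ) • (Finsupp.single n z : V 1) m
    rw [sob_single, Finsupp.single_apply, Finsupp.single_apply, Fin.sum_univ_one]
    split_ifs with hnm
    · rw [hnm, smul_eq_mul, mul_comm, sv]
    · rw [smul_zero]
  exact LinearMap.congr_fun h v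

theorem one_le_sv {c s : ℝ} (hc : 0 < c) (hs : 0 < s) (m : ℤ) : 1 ≤ sv c s m := by
  refine Real.one_le_rpow ?_ (by positivity)
  have : 0 ≤ c * ((-2 * m : ℤ) : ℝ) ^ 2 := by positivity
  linarith

theorem HH_nonneg (m : ℤ) : 0 ≤ HH m := Finset.sum_nonneg fun k _ => by positivity

theorem HH_le {c s : ℝ} (hc : 0 < c) (hs : 0 < s) :
    ∃ C : ℝ, 0 < C ∧ ∀ m : ℤ, HH m ≤ C * sv c s m := by
  refine ⟨2 * (1 + (4 * c) ^ (-(s / 2)) / s), by positivity, fun m => ?_⟩
  rcases eq_or_ne m 0 with rfl | hm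
  · have h1 := one_le_sv hc hs 0
    have h2 : HH 0 = 0 := by simp [HH]
    rw [h2]
    have : (0 : ℝ) ≤ 2 * (1 + (4 * c) ^ (-(s / 2)) / s) := by positivity
    exact mul_nonneg this (by linarith)
  · set N := m.natAbs with hN
    have hN1 : 1 ≤ N := by omega
    have hNR : (1 : ℝ) ≤ N := by exact_mod_cast hN1
    have h1 : HH m ≤ 2 * (1 + Real.log N) := by
      have h2 : HH m ≤ 2 * ((harmonic N : ℚ) : ℝ) := by
        rw [HH, ← hN, harmonic]
        push_cast
        rw [Finset.mul_sum]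
        refine Finset.sum_le_sum fun k _ => ?_
        have h3 : (0 : ℝ) < (k : ℝ) + 1 / 2 := by positivity
        have h4 : (0 : ℝ) < (k : ℝ) + 1 := by positivity
        rw [← div_eq_mul_inv, div_le_div_iff₀ h3 h4]
        linarith
      have h3 := harmonic_le_one_add_log N
      linarith
    have h2 : Real.log N ≤ (N : ℝ) ^ s / s := Real.log_le_rpow_div (by positivity) hs
    have h3 : ((N : ℝ)) ^ s ≤ (4 * c) ^ (-(s / 2)) * sv c s m := by
      have h4 : (N : ℝ) ^ s = ((N : ℝ) ^ 2) ^ (s / 2) := by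
        rw [← Real.rpow_natCast, ← Real.rpow_mul (by positivity)]
        congr 1
        push_cast
        ring
      have h5 : (N : ℝ) ^ 2 = (m : ℝ) ^ 2 := by
        rw [hN, Nat.cast_natAbs]
        push_cast
        exact sq_abs _
      have h6 : ((N : ℝ) ^ 2) = (4 * c)⁻¹ * (c * ((-2 * m : ℤ) : ℝ) ^ 2) := by
        rw [h5]
        push_cast
        field_simp
        ring
      rw [h4, h6, Real.mul_rpow (by positivity) (by positivity), sv, Real.rpow_neg (by positivity),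
        Real.inv_rpow (by positivity)]
      refine mul_le_mul_of_nonneg_left ?_ (by positivity)
      refine Real.rpow_le_rpow (by positivity) ?_ (by positivity)
      linarith
    have h4 := one_le_sv hc hs m
    calc HH m ≤ 2 * (1 + Real.log N) := h1
      _ ≤ 2 * (sv c s m + ((4 * c) ^ (-(s / 2)) * sv c s m) / s) := by
        have h5 : Real.log N ≤ ((4 * c) ^ (-(s / 2)) * sv c s m) / s :=
          h2.trans (div_le_div_of_nonneg_right h3 hs.le)
        linarith
      _ = _ := by ring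

theorem HH_unbounded (C : ℝ) : ∃ m : ℤ, C < HH m := by
  obtain ⟨N, hN⟩ := ((Real.tendsto_log_atTop.comp (tendsto_natCast_atTop_atTop (R := ℝ))).comp
    (tendsto_add_atTop_nat 1)).eventually_gt_atTop C |>.exists
  refine ⟨N, hN.trans_le ?_⟩
  have h1 := log_add_one_le_harmonic N
  refine (le_trans ?_ h1).trans ?_
  · simp
  · rw [HH, Int.natAbs_natCast, harmonic]
    push_cast
    refine Finset.sum_le_sum fun k _ => ?_
    have h3 : (0 : ℝ) < (k : ℝ) + 1 / 2 := by positivity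
    have h4 : (0 : ℝ) < (k : ℝ) + 1 := by positivity
    rw [← one_div, div_le_div_iff₀ h4 h3]
    linarith

/-! ### The norms -/

/-- The norms, depending on a parameter. -/
noncomputable def pp (ε : ℂ) (u : VV) : ℝ := ‖jE ε u‖

theorem pp_eq (ε : ℂ) (u : VV) : pp ε u = max (nn u.1) (nn (u.2 + ε • LL u.1)) := rfl

/-- The Sobolev operator on two copies. -/
noncomputable def sob2 (c s : ℝ) : VV →ₗ[ℂ] VV := LinearMap.prodMap (sob 1 c s) (sob 1 c s)

theorem isSobolev2 (c s : ℝ) : IsSobolev DD c s (sob2 c s) := by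
  intro k u hu
  obtain ⟨h1, h2⟩ := (isWeight2_iff k u).1 hu
  have h3 : ∀ v : V 1, (∀ m, v m ≠ 0 → k 0 = -2 * m 0) → sob 1 c s v =
      (((1 + c * ∑ i, (k i : ℝ) ^ 2) ^ (s / 2) : ℝ) : ℂ) • v := by
    intro v hv
    ext m
    rw [sob_apply, Finsupp.smul_apply, smul_eq_mul, Fin.sum_univ_one]
    by_cases hm : v m = 0
    · rw [hm, mul_zero, mul_zero]
    · rw [hv m hm, sv]
  exact Prod.ext (h3 u.1 h1) (h3 u.2 h2)

theorem dominated_aux (a b : ℂ) {c s : ℝ} (hc : 0 < c) (hs : 0 < s) :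
    Dominated (pp a) (fun u => pp b (sob2 c s u)) := by
  obtain ⟨C, hC, hH⟩ := HH_le hc hs
  refine ⟨1 + ‖a - b‖ * C, by positivity, fun u => ?_⟩
  have e1 : ∀ v, nn v ≤ 1 * nn (sob 1 c s v) := by
    intro v
    refine nn_le zero_le_one fun m => ?_
    rw [sob_apply, norm_mul, one_mul, Complex.norm_real, Real.norm_of_nonneg
      (by linarith [one_le_sv hc hs (m 0)])]
    exact le_mul_of_one_le_left (norm_nonneg _) (one_le_sv hc hs _)
  have e2 : ∀ v, nn (LL v) ≤ C * nn (sob 1 c s v) := by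
    intro v
    refine nn_le hC.le fun m => ?_
    rw [sob_apply, LL_apply, norm_mul, norm_mul, Complex.norm_real, Complex.norm_real,
      Real.norm_of_nonneg (HH_nonneg _), Real.norm_of_nonneg (by linarith [one_le_sv hc hs (m 0)]),
      ← mul_assoc]
    exact mul_le_mul_of_nonneg_right (hH _) (norm_nonneg _)
  have e3 : ∀ v, sob 1 c s (LL v) = LL (sob 1 c s v) := by
    intro v
    ext m
    rw [sob_apply, LL_apply, LL_apply, sob_apply]
    ring
  have e4 : pp b (sob2 c s u) = max (nn (sob 1 c s u.1)) (nn (sob 1 c s (u.2 + b • LL u.1))) := by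
    rw [pp_eq, map_add, map_smul, e3]
    rfl
  set M := pp b (sob2 c s u) with hM
  have m1 : nn (sob 1 c s u.1) ≤ M := by rw [e4]; exact le_max_left _ _
  have m2 : nn (sob 1 c s (u.2 + b • LL u.1)) ≤ M := by rw [e4]; exact le_max_right _ _
  have hM0 : 0 ≤ M := (nn_nonneg _).trans m1
  rw [pp_eq]
  refine max_le ?_ ?_
  · have h1 := e1 u.1
    have h2 : 0 ≤ ‖a - b‖ * C * M := by positivity
    linarith
  · have h1 : u.2 + a • LL u.1 = (u.2 + b • LL u.1) + (a - b) • LL u.1 := by module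
    have h2 : nn ((a - b) • LL u.1) = ‖a - b‖ * nn (LL u.1) := by
      rw [nn, map_smul, map_smul, norm_smul]
      rfl
    rw [h1]
    refine (nn_add _ _).trans ?_
    rw [h2]
    have h3 := e1 (u.2 + b • LL u.1)
    have h4 := e2 u.1
    have h5 : ‖a - b‖ * nn (LL u.1) ≤ ‖a - b‖ * (C * M) :=
      mul_le_mul_of_nonneg_left (h4.trans (mul_le_mul_of_nonneg_left m1 hC.le)) (norm_nonneg _)
    linarith

theorem dArrow_eq_zero (a b : ℂ) {c : ℝ} (hc : 0 < c) : dArrow DD c (pp a) (pp b) = 0 := by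
  rw [← nonpos_iff_eq_zero]
  refine ENNReal.le_of_forall_pos_le_add fun s hs _ => ?_
  rw [zero_add]
  exact iInf₂_le s ⟨sob2 c s, isSobolev2 c s, dominated_aux a b hc (by exact_mod_cast hs)⟩

theorem not_equiv : ¬ NormEquiv (pp 0) (pp 1) := by
  rintro ⟨-, C, hC, h⟩
  obtain ⟨m, hm⟩ := HH_unbounded C
  have h1 := h (Finsupp.single (Pi.single 0 m) 1, 0)
  rw [pp_eq, pp_eq] at h1
  simp only [zero_smul, one_smul, add_zero, zero_add, LL_single, one_mul, Pi.single_eq_same,
    nn_single, norm_one] at h1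
  have h2 : nn (0 : V 1) = 0 := by
    rw [nn, map_zero, map_zero, norm_zero]
  rw [h2, max_eq_left zero_le_one, mul_one, Complex.norm_real, Real.norm_of_nonneg (HH_nonneg _)] at h1
  exact absurd (hm.trans_le ((le_max_right _ _).trans h1)) (lt_irrefl _)

/-! ### The weight -/

/-- The weight. -/
noncomputable def ww (g : G 1) : ℝ := 1 + ‖lJ g‖

theorem ww_weight : IsWeightFunction ww where
  pos g := by
    unfold ww
    positivity
  submul g h := by
    have h1 : ‖lJ (g * h)‖ ≤ ‖lJ g‖ + ‖lJ h‖ := by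
      rw [lJ_mul]
      exact (norm_add_le _ _).trans (add_le_add_right (norm_rep_le _ _) _)
    have h2 : 0 ≤ ‖lJ g‖ * ‖lJ h‖ := by positivity
    unfold ww
    nlinarith
  locallyBounded g := by
    refine ⟨ww g + 1, ?_⟩
    have h1 : Continuous ww := continuous_const.add continuous_lJ.norm
    filter_upwards [h1.continuousAt.eventually_lt continuousAt_const (lt_add_one (ww g))] with h hh
    exact hh.le

theorem pie_bound (ε : ℂ) (hε : ‖ε‖ ≤ 1) (g : G 1) (x : EE) : ‖pie ε g x‖ ≤ ww g * ‖x‖ := by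
  rw [pie_apply, Prod.norm_def]
  have h1 : ‖x.1‖ ≤ ‖x‖ := norm_fst_le x
  have h2 : ‖x.2‖ ≤ ‖x‖ := norm_snd_le x
  have hx := norm_nonneg x
  refine max_le ?_ ?_
  · refine ((Aop_le g x.1).trans h1).trans ?_
    unfold ww
    nlinarith [norm_nonneg (lJ g)]
  · refine (norm_add_le _ _).trans ?_
    have h3 := (Aop_le g x.2).trans h2
    have h4 : ‖ε • Bop g x.1‖ ≤ ‖lJ g‖ * ‖x‖ := by
      rw [norm_smul]
      calc ‖ε‖ * ‖Bop g x.1‖ ≤ 1 * ‖Bop g x.1‖ := mul_le_mul_of_nonneg_right hε (norm_nonneg _)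
        _ = ‖Bop g x.1‖ := one_mul _
        _ ≤ ‖lJ g‖ * ‖x.1‖ := Bop_le g x.1
        _ ≤ ‖lJ g‖ * ‖x‖ := mul_le_mul_of_nonneg_left h1 (norm_nonneg _)
    change ‖Aop g x.2‖ + ‖ε • Bop g x.1‖ ≤ ww g * ‖x‖
    unfold ww
    linarith

theorem inNorm (ε : ℂ) (hε : ‖ε‖ ≤ 1) : InNorm DD ww (pp ε) :=
  ⟨EE, inferInstance, inferInstance, inferInstance, pie ε, jE ε, globalization ε, kfinite ε, 1,
    one_pos, fun g v => by
      rw [one_mul]
      exact pie_bound ε hε g (jE ε v)⟩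

end Q4.HC
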