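import Pool.Agent.Q4.HCB.Mod2
import Pool.Agent.Q4.HCB.Defs2

/-!
# The family of globalizations
-/

open Filter Topology ComplexConjugate MeasureTheory

namespace Q4.HC

attribute [local instance] instMS' instHaar' instProb'

/-! ### The logarithmic multiplier -/

/-- The eigenvalues of the logarithmic multiplier. -/
noncomputable def HH (n : ℤ) : ℝ := ∑ k ∈ Finset.range n.natAbs, 1 / ((k : ℝ) + 1 / 2)

theorem HH_succ (n : ℤ) : HH (n + 1) - HH n = 1 / ((n : ℝ) + 1 / 2) := by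
  obtain ⟨k, hk | hk⟩ : ∃ k : ℕ, n = k ∨ n = -(k + 1 : ℕ) := by
    rcases n.eq_nat_or_neg with ⟨k, hk | hk⟩
    · exact ⟨k, Or.inl hk⟩
    · rcases k with _ | k
      · exact ⟨0, Or.inl (by simpa using hk)⟩
      · exact ⟨k, Or.inr hk⟩
  · subst hk
    have h1 : ((k : ℤ) + 1).natAbs = k + 1 := by omega
    rw [HH, HH, h1, Int.natAbs_natCast, Finset.sum_range_succ, add_sub_cancel_left]
    push_cast
    rfl
  · subst hk
    have h1 : (-((k + 1 : ℕ) : ℤ) + 1).natAbs = k := by omega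
    have h2 : (-((k + 1 : ℕ) : ℤ)).natAbs = k + 1 := by omega
    rw [HH, HH, h1, h2, Finset.sum_range_succ]
    push_cast
    have h3 : ((k : ℝ) + 1 / 2) ≠ 0 := by positivity
    have h4 : (-((k : ℝ) + 1) + 1 / 2) = -((k : ℝ) + 1 / 2) := by ring
    rw [h4, div_neg]
    ring

/-- The logarithmic multiplier. -/
noncomputable def LL : V 1 →ₗ[ℂ] V 1 :=
  Finsupp.linearCombination ℂ fun m => (Finsupp.single m (HH (m 0) : ℂ) : V 1)

theorem LL_single (m : Fin 1 → ℤ) (c : ℂ) :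
    LL (Finsupp.single m c) = Finsupp.single m (c * HH (m 0)) := by
  rw [LL, Finsupp.linearCombination_single, Finsupp.smul_single, smul_eq_mul]

/-- The action of the Lie algebra on one copy. -/
noncomputable def hact (Y : Fin 1 → Matrix (Fin 2) (Fin 2) ℝ) : V 1 →ₗ[ℂ] V 1 :=
  ((Y 0 0 0 : ℝ) : ℂ) • hh + ((Y 0 0 1 : ℝ) : ℂ) • he + ((Y 0 1 0 : ℝ) : ℂ) • hf

theorem DD_act (Y : Fin 1 → Matrix (Fin 2) (Fin 2) ℝ) (u : VV) :
    DD.act Y u = (hact Y u.1, hact Y u.2) := by
  rw [Ops.act, Fin.sum_univ_one, DD_h, DD_e, DD_f]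
  rfl

theorem chi_shift (m : Fin 1 → ℤ) (x : X 1) :
    chi (m + Pi.single 0 1) x = chi m x * U 0 x ∧
    chi (m + Pi.single 0 (-1)) x = chi m x * conj (U 0 x) := by
  constructor
  · rw [chi_add]
    rfl
  · have : (Pi.single 0 (-1) : Fin 1 → ℤ) = -Pi.single 0 1 := by
      rw [← Pi.single_neg]
    rw [chi_add, this, chi_neg]
    rfl

theorem jj_hact (Y : Fin 1 → Matrix (Fin 2) (Fin 2) ℝ) (v : V 1) :
    jj 1 (hact Y v) = algebraMap ℂ _ (1 / 2) * lam Y * jj 1 v + jj 1 ((D 1).act Y v) := by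
  induction v using Finsupp.induction_linear with
  | zero =>
    have h1 : (D 1).act Y 0 = 0 := by
      rw [Ops.act]
      simp [D]
    rw [h1, map_zero, map_zero, mul_zero, add_zero]
  | add f g hf hg =>
    have h1 : (D 1).act Y (f + g) = (D 1).act Y f + (D 1).act Y g := by
      rw [Ops.act, Ops.act, Ops.act, ← Finset.sum_add_distrib]
      refine Finset.sum_congr rfl fun i _ => ?_
      simp only [D, map_add, smul_add]
      abel
    rw [h1, map_add, map_add, map_add, map_add, hf, hg]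
    ring
  | single m c =>
    rw [jj_act]
    ext x
    obtain ⟨h1, h2⟩ := chi_shift m x
    have hl : jj 1 (hact Y (Finsupp.single m c)) x =
        (Y 0 0 0 : ℂ) * (c * (m 0 + 1 / 2) * (chi m x * U 0 x) -
          c * (m 0 - 1 / 2) * (chi m x * conj (U 0 x))) +
        (Y 0 0 1 : ℂ) * (Complex.I * (c * m 0 * chi m x - 1 / 2 * (c * (m 0 - 1 / 2) *
          (chi m x * conj (U 0 x))) - 1 / 2 * (c * (m 0 + 1 / 2) * (chi m x * U 0 x)))) +
        (Y 0 1 0 : ℂ) * (Complex.I * (-(c * m 0 * chi m x) - 1 / 2 * (c * (m 0 - 1 / 2) * (chi m x *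
          conj (U 0 x))) - 1 / 2 * (c * (m 0 + 1 / 2) * (chi m x * U 0 x)))) := by
      simp only [hact, LinearMap.add_apply, LinearMap.smul_apply, hh_apply, he_apply, hf_apply,
        map_add, map_sub, map_smul, map_neg, TH_single,
        ContinuousMap.add_apply, ContinuousMap.sub_apply, ContinuousMap.smul_apply,
        ContinuousMap.neg_apply, jj_single_apply, h1, h2, smul_eq_mul, Pi.single_zero, add_zero,
        Int.cast_zero, zero_div, Int.cast_one, Int.cast_neg]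
      ring
    have hr1 : (c • (chi m * Om Y m)) x = c * (chi m x * ((m 0 : ℂ) *
        (-(((Y 0 1 0 - Y 0 0 1 : ℝ) : ℂ) * Complex.I) -
        ((Y 0 0 0 : ℂ) + ((Y 0 1 0 + Y 0 0 1 : ℝ) : ℂ) * Complex.I / 2) * conj (U 0 x) +
        ((Y 0 0 0 : ℂ) - ((Y 0 1 0 + Y 0 0 1 : ℝ) : ℂ) * Complex.I / 2) * U 0 x))) := by
      change c * (chi m x * (Om Y m) x) = _
      rw [Om, Fin.sum_univ_one]
      rfl
    have hr2 : (algebraMap ℂ C(X 1, ℂ) (1 / 2) * lam Y * jj 1 (Finsupp.single m c)) x =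
        1 / 2 * (((Y 0 0 0 : ℂ) + ((Y 0 1 0 + Y 0 0 1 : ℝ) : ℂ) * Complex.I / 2) * conj (U 0 x) +
        ((Y 0 0 0 : ℂ) - ((Y 0 1 0 + Y 0 0 1 : ℝ) : ℂ) * Complex.I / 2) * U 0 x) *
        (c * chi m x) := by
      change 1 / 2 * (lam Y x) * (jj 1 (Finsupp.single m c) x) = _
      rw [jj_single_apply]
      rfl
    rw [hl, ContinuousMap.add_apply, hr1, hr2]
    push_cast
    ring

theorem comm_LL (Y : Fin 1 → Matrix (Fin 2) (Fin 2) ℝ) (v : V 1) :
    jj 1 (LL (hact Y v)) = jj 1 (hact Y (LL v)) + lam Y * jj 1 v := by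
  induction v using Finsupp.induction_linear with
  | zero => simp
  | add f g hf hg =>
    rw [map_add, map_add, map_add, map_add, map_add, map_add, map_add, hf, hg]
    ring
  | single m c =>
    ext x
    obtain ⟨h1, h2⟩ := chi_shift m x
    have hm1 : (m + Pi.single 0 1 : Fin 1 → ℤ) 0 = m 0 + 1 := by
      rw [Pi.add_apply, Pi.single_eq_same]
    have hm2 : (m + Pi.single 0 (-1) : Fin 1 → ℤ) 0 = m 0 - 1 := by
      rw [Pi.add_apply, Pi.single_eq_same]
      ring
    have hl : jj 1 (LL (hact Y (Finsupp.single m c))) x =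
        (Y 0 0 0 : ℂ) * (c * (m 0 + 1 / 2) * HH (m 0 + 1) * (chi m x * U 0 x) -
          c * (m 0 - 1 / 2) * HH (m 0 - 1) * (chi m x * conj (U 0 x))) +
        (Y 0 0 1 : ℂ) * (Complex.I * (c * m 0 * HH (m 0) * chi m x - 1 / 2 * (c * (m 0 - 1 / 2) *
          HH (m 0 - 1) * (chi m x * conj (U 0 x))) - 1 / 2 * (c * (m 0 + 1 / 2) *
          HH (m 0 + 1) * (chi m x * U 0 x)))) +
        (Y 0 1 0 : ℂ) * (Complex.I * (-(c * m 0 * HH (m 0) * chi m x) - 1 / 2 * (c * (m 0 - 1 / 2) *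
          HH (m 0 - 1) * (chi m x * conj (U 0 x))) - 1 / 2 * (c * (m 0 + 1 / 2) *
          HH (m 0 + 1) * (chi m x * U 0 x)))) := by
      simp only [hact, LinearMap.add_apply, LinearMap.smul_apply, hh_apply, he_apply, hf_apply,
        map_add, map_sub, map_smul, map_neg, TH_single, LL_single, hm1, hm2,
        ContinuousMap.add_apply, ContinuousMap.sub_apply, ContinuousMap.smul_apply,
        ContinuousMap.neg_apply, jj_single_apply, h1, h2, smul_eq_mul, Pi.single_zero, add_zero,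
        Int.cast_zero, zero_div, Int.cast_one, Int.cast_neg]
      ring
    have hr : jj 1 (hact Y (LL (Finsupp.single m c))) x =
        (Y 0 0 0 : ℂ) * (c * HH (m 0) * (m 0 + 1 / 2) * (chi m x * U 0 x) -
          c * HH (m 0) * (m 0 - 1 / 2) * (chi m x * conj (U 0 x))) +
        (Y 0 0 1 : ℂ) * (Complex.I * (c * HH (m 0) * m 0 * chi m x - 1 / 2 * (c * HH (m 0) *
          (m 0 - 1 / 2) * (chi m x * conj (U 0 x))) - 1 / 2 * (c * HH (m 0) * (m 0 + 1 / 2) *
          (chi m x * U 0 x)))) +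
        (Y 0 1 0 : ℂ) * (Complex.I * (-(c * HH (m 0) * m 0 * chi m x) - 1 / 2 * (c * HH (m 0) *
          (m 0 - 1 / 2) * (chi m x * conj (U 0 x))) - 1 / 2 * (c * HH (m 0) * (m 0 + 1 / 2) *
          (chi m x * U 0 x)))) := by
      simp only [hact, LinearMap.add_apply, LinearMap.smul_apply, hh_apply, he_apply, hf_apply,
        map_add, map_sub, map_smul, map_neg, TH_single, LL_single,
        ContinuousMap.add_apply, ContinuousMap.sub_apply, ContinuousMap.smul_apply,
        ContinuousMap.neg_apply, jj_single_apply, h1, h2, smul_eq_mul, Pi.single_zero, add_zero,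
        Int.cast_zero, zero_div, Int.cast_one, Int.cast_neg]
      ring
    have hr2 : (lam Y * jj 1 (Finsupp.single m c)) x =
        (((Y 0 0 0 : ℂ) + ((Y 0 1 0 + Y 0 0 1 : ℝ) : ℂ) * Complex.I / 2) * conj (U 0 x) +
        ((Y 0 0 0 : ℂ) - ((Y 0 1 0 + Y 0 0 1 : ℝ) : ℂ) * Complex.I / 2) * U 0 x) *
        (c * chi m x) := by
      change (lam Y x) * (jj 1 (Finsupp.single m c) x) = _
      rw [jj_single_apply]
      rfl
    have e1 : ((m 0 : ℂ) + 1 / 2) * (HH (m 0 + 1) : ℂ) = (m 0 + 1 / 2) * HH (m 0) + 1 := by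
      have h3 := HH_succ (m 0)
      have h4 : ((m 0 : ℝ) + 1 / 2) ≠ 0 := by
        intro h
        have h5 : ((2 * m 0 + 1 : ℤ) : ℝ) = 0 := by
          push_cast
          linarith
        have h6 : 2 * m 0 + 1 = 0 := by exact_mod_cast h5
        omega
      rw [eq_div_iff h4] at h3
      have h5 : ((m 0 : ℝ) + 1 / 2) * HH (m 0 + 1) = (m 0 + 1 / 2) * HH (m 0) + 1 := by linarith
      have h6 := congrArg (fun t : ℝ => (t : ℂ)) h5
      push_cast at h6
      exact h6
    have e2 : ((m 0 : ℂ) - 1 / 2) * (HH (m 0 - 1) : ℂ) = (m 0 - 1 / 2) * HH (m 0) - 1 := by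
      have h3 := HH_succ (m 0 - 1)
      have h4 : (((m 0 - 1 : ℤ) : ℝ) + 1 / 2) ≠ 0 := by
        intro h
        have h5 : ((2 * m 0 - 1 : ℤ) : ℝ) = 0 := by
          push_cast at h ⊢
          linarith
        have h6 : 2 * m 0 - 1 = 0 := by exact_mod_cast h5
        omega
      rw [eq_div_iff h4, sub_add_cancel] at h3
      have h5 : ((m 0 : ℝ) - 1 / 2) * HH (m 0 - 1) = (m 0 - 1 / 2) * HH (m 0) - 1 := by
        push_cast at h3
        linarith
      have h6 := congrArg (fun t : ℝ => (t : ℂ)) h5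
      push_cast at h6
      exact h6
    rw [hl, ContinuousMap.add_apply, hr, hr2]
    push_cast
    linear_combination (c * chi m x * U 0 x * ((Y 0 0 0 : ℂ) - Complex.I / 2 * Y 0 0 1 -
      Complex.I / 2 * Y 0 1 0)) * e1 - (c * chi m x * conj (U 0 x) * ((Y 0 0 0 : ℂ) +
      Complex.I / 2 * Y 0 0 1 + Complex.I / 2 * Y 0 1 0)) * e2

/-! ### The representations -/

/-- The Banach space. -/
noncomputable abbrev EE : Type := Hs × Hs

/-- The representations, depending on a parameter. -/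
noncomputable def pie (ε : ℂ) : G 1 →* (EE →L[ℂ] EE) where
  toFun g := (Aop g ∘L ContinuousLinearMap.fst ℂ Hs Hs).prod
    (Aop g ∘L ContinuousLinearMap.snd ℂ Hs Hs + ε • Bop g ∘L ContinuousLinearMap.fst ℂ Hs Hs)
  map_one' := by
    refine ContinuousLinearMap.ext fun x => ?_
    change ((Aop 1 x.1, Aop 1 x.2 + ε • Bop 1 x.1) : EE) = x
    rw [Aop_one, Aop_one, Bop_one, smul_zero, add_zero]
  map_mul' g h := by
    refine ContinuousLinearMap.ext fun x => ?_
    change ((Aop (g * h) x.1, Aop (g * h) x.2 + ε • Bop (g * h) x.1) : EE) =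
      (Aop g (Aop h x.1), Aop g (Aop h x.2 + ε • Bop h x.1) + ε • Bop g (Aop h x.1))
    rw [Aop_mul, Aop_mul, Bop_mul, map_add, map_smul]
    congr 1
    module

theorem pie_apply (ε : ℂ) (g : G 1) (x : EE) :
    pie ε g x = (Aop g x.1, Aop g x.2 + ε • Bop g x.1) := rfl

/-- The embeddings. -/
noncomputable def jE (ε : ℂ) : VV →ₗ[ℂ] EE :=
  (LinearMap.prodMap (FF.toLinearMap ∘ₗ jj 1) (FF.toLinearMap ∘ₗ jj 1)) ∘ₗ
    (LinearMap.prod (LinearMap.fst ℂ (V 1) (V 1))
      (LinearMap.snd ℂ (V 1) (V 1) + ε • LL ∘ₗ LinearMap.fst ℂ (V 1) (V 1)))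

theorem jE_apply (ε : ℂ) (u : VV) :
    jE ε u = (FF (jj 1 u.1), FF (jj 1 (u.2 + ε • LL u.1))) := rfl

theorem FFjj_inj : Function.Injective (fun v : V 1 => FF (jj 1 v)) := by
  have h2 := (UnitAddTorus.orthonormal_mFourier (d := Fin 1)).linearIndependent
  have h3 : (fun v : V 1 => FF (jj 1 v)) =
      Finsupp.linearCombination ℂ (UnitAddTorus.mFourierLp (d := Fin 1) 2) := by
    funext v
    rw [jj, Finsupp.linearCombination_apply, Finsupp.linearCombination_apply, Finsupp.sum,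
      Finsupp.sum, map_sum]
    refine Finset.sum_congr rfl fun m _ => ?_
    rw [map_smul]
    rfl
  rw [h3]
  exact h2

theorem jE_inj (ε : ℂ) : Function.Injective (jE ε) := by
  intro u v h
  rw [jE_apply, jE_apply] at h
  have h1 := FFjj_inj (congrArg Prod.fst h)
  have h2 := FFjj_inj (congrArg Prod.snd h)
  rw [h1] at h2
  exact Prod.ext h1 (add_right_cancel h2)

theorem FFjj_dense : DenseRange (fun v : V 1 => FF (jj 1 v)) :=
  FF_dense.comp jj_dense FF.continuous

theorem jE_dense (ε : ℂ) : DenseRange (jE ε) := by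
  have h1 : DenseRange (Prod.map (fun v : V 1 => FF (jj 1 v)) (fun v : V 1 => FF (jj 1 v))) :=
    FFjj_dense.prodMap FFjj_dense
  have h2 : Set.range (jE ε) =
      Set.range (Prod.map (fun v : V 1 => FF (jj 1 v)) (fun v : V 1 => FF (jj 1 v))) := by
    apply Set.eq_of_subset_of_subset
    · rintro _ ⟨u, rfl⟩
      exact ⟨(u.1, u.2 + ε • LL u.1), rfl⟩
    · rintro _ ⟨u, rfl⟩
      refine ⟨(u.1, u.2 - ε • LL u.1), ?_⟩
      rw [jE_apply]
      simp only [sub_add_cancel]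
      rfl
  rw [DenseRange, h2]
  exact h1

theorem continuous_pie (ε : ℂ) (x : EE) : Continuous fun g => pie ε g x :=
  (continuous_Aop x.1).prodMk ((continuous_Aop x.2).add ((continuous_Bop x.1).const_smul ε))

theorem hasDerivAt_Aop {Y : Fin 1 → Matrix (Fin 2) (Fin 2) ℝ} {γ : ℝ → G 1} (h : Curve Y γ)
    (v : V 1) : HasDerivAt (fun t => Aop (γ t) (FF (jj 1 v))) (FF (jj 1 (hact Y v))) 0 := by
  have h1 := (hasDerivAt_ph h).fun_mul (rep_deriv h v)
  have h2 := ((FF.restrictScalars ℝ).hasFDerivAt (x := ph (γ 0) * rep 1 (γ 0) (jj 1 v))).comp_hasDerivAt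
    (0 : ℝ) h1
  simp only [Aop_FF]
  refine h2.congr_deriv ?_
  rw [h.one, map_one, ph_one, jj_hact, one_mul]
  rfl

theorem hasDerivAt_Bop {Y : Fin 1 → Matrix (Fin 2) (Fin 2) ℝ} {γ : ℝ → G 1} (h : Curve Y γ)
    (v : V 1) : HasDerivAt (fun t => Bop (γ t) (FF (jj 1 v))) (FF (lam Y * jj 1 v)) 0 := by
  have h1 := (hasDerivAt_lJ h).fun_mul ((hasDerivAt_ph h).fun_mul (rep_deriv h v))
  have h2 := ((FF.restrictScalars ℝ).hasFDerivAt (x := lJ (γ 0) * (ph (γ 0) *
    rep 1 (γ 0) (jj 1 v)))).comp_hasDerivAt (0 : ℝ) h1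
  simp only [Bop_FF]
  refine h2.congr_deriv ?_
  rw [h.one, map_one, ph_one, lJ_one, zero_mul, add_zero, one_mul]
  rfl

theorem globalization (ε : ℂ) : IsGlobalization DD (fun v => ‖jE ε v‖) (pie ε) (jE ε) where
  inj := jE_inj ε
  norm_eq _ := rfl
  dense := jE_dense ε
  cont := continuous_pie ε
  deriv Y γ h1 h2 u := by
    have h := Curve.of_hom h1 h2
    have h3 := (hasDerivAt_Aop h u.1).prodMk
      ((hasDerivAt_Aop h (u.2 + ε • LL u.1)).fun_add ((hasDerivAt_Bop h u.1).fun_const_smul ε))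
    refine h3.congr_deriv ?_
    rw [DD_act, jE_apply]
    congr 1
    have e1 : ε • FF (lam Y * jj 1 u.1) = FF (ε • (lam Y * jj 1 u.1)) := (map_smul FF ε _).symm
    change FF (jj 1 (hact Y (u.2 + ε • LL u.1))) + ε • FF (lam Y * jj 1 u.1) =
      FF (jj 1 (hact Y u.2 + ε • LL (hact Y u.1)))
    rw [e1, ← map_add FF, map_add (hact Y), map_smul (hact Y), map_add (jj 1), map_smul (jj 1),
      map_add (jj 1), map_smul (jj 1), comm_LL, smul_add, add_assoc]

end Q4.HC
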