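import Pool.Agent.Q4.HCB.Change

/-!
# The automorphy factor of the half-density representation
-/

open Filter Topology ComplexConjugate MeasureTheory

namespace Q4.HC

/-- The automorphy factor. -/
noncomputable def Wf (g : G 1) : C(X 1, ℂ) :=
  algebraMap ℂ _ (al (g 0)) - algebraMap ℂ _ (conj (be (g 0))) * U 0

theorem Wf_apply (g : G 1) (x : X 1) : Wf g x = al (g 0) - conj (be (g 0)) * U 0 x := rfl

theorem rep_algebraMap (g : G 1) (z : ℂ) : rep 1 g (algebraMap ℂ _ z) = algebraMap ℂ _ z := rfl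

theorem Wf_mul (g h : G 1) : Wf (g * h) = Wf g * rep 1 g (Wf h) := by
  have h1 : rep 1 g (Wf h) = algebraMap ℂ _ (al (h 0)) -
      algebraMap ℂ _ (conj (be (h 0))) * rep 1 g (U 0) := by
    rw [Wf, map_sub, rep_mul, rep_algebraMap, rep_algebraMap]
  have h2 := rep_U g 0
  have h3 : al ((g * h) 0) = al (g 0) * al (h 0) + be (g 0) * conj (be (h 0)) := al_mul _ _
  have h4 : be ((g * h) 0) = al (g 0) * be (h 0) + be (g 0) * conj (al (h 0)) := be_mul _ _
  rw [h1, Wf, Wf, h3, h4]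
  simp only [map_add, map_mul, Complex.conj_conj]
  linear_combination (algebraMap ℂ C(X 1, ℂ) (conj (be (h 0)))) * h2

theorem Wf_one : Wf 1 = 1 := by
  have h1 : al ((1 : G 1) 0) = 1 := al_one
  have h2 : be ((1 : G 1) 0) = 0 := be_one
  rw [Wf, h1, h2]
  simp

theorem norm_U_apply (x : X 1) : ‖U 0 x‖ = 1 := by
  have h1 := congrArg (fun f : C(X 1, ℂ) => f x) (U_star (r := 1) 0)
  change U 0 x * conj (U 0 x) = 1 at h1
  rw [Complex.mul_conj, Complex.normSq_eq_norm_sq] at h1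
  have h2 : ‖U 0 x‖ ^ 2 = 1 := by exact_mod_cast h1
  have h3 := norm_nonneg (U 0 x)
  nlinarith

theorem Wf_ne (g : G 1) (x : X 1) : Wf g x ≠ 0 := by
  rw [Wf_apply, sub_ne_zero]
  intro h
  have h1 := congrArg norm h
  rw [norm_mul, RCLike.norm_conj, norm_U_apply, mul_one] at h1
  have h2 := norm_be_lt (g 0)
  rw [h1] at h2
  exact lt_irrefl _ h2

/-- The squared absolute value of the automorphy factor. -/
noncomputable def nW (g : G 1) (x : X 1) : ℝ := ‖Wf g x‖ ^ 2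

theorem nW_pos (g : G 1) (x : X 1) : 0 < nW g x := by
  have := norm_pos_iff.2 (Wf_ne g x)
  unfold nW
  positivity

theorem nW_mul (g h : G 1) (x : X 1) : nW (g * h) x = nW g x * nW h (actX g⁻¹ x) := by
  have h1 : Wf (g * h) x = Wf g x * Wf h (actX g⁻¹ x) := by
    rw [Wf_mul]
    rfl
  rw [nW, nW, nW, h1, norm_mul, mul_pow]

theorem nW_one (x : X 1) : nW 1 x = 1 := by
  rw [nW, Wf_one]
  simp

theorem nW_eq (g : G 1) (x : X 1) : (nW g x : ℂ) = (Wf g * star (Wf g)) x := by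
  change _ = Wf g x * conj (Wf g x)
  rw [Complex.mul_conj, Complex.normSq_eq_norm_sq]
  rfl

theorem continuous_nW : Continuous fun p : G 1 × X 1 => nW p.1 p.2 := by
  have h0 : Continuous fun p : G 1 × X 1 => p.1 0 :=
    (continuous_apply (A := fun _ : Fin 1 => SL) 0).comp continuous_fst
  have h1 : Continuous fun p : G 1 × X 1 => al (p.1 0) := continuous_al.comp h0
  have h2 : Continuous fun p : G 1 × X 1 => be (p.1 0) := continuous_be.comp h0
  have h3 : Continuous fun p : G 1 × X 1 => U 0 p.2 := (U 0).continuous.comp continuous_snd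
  exact ((h1.sub ((Complex.continuous_conj.comp h2).mul h3)).norm).pow 2

theorem continuous_nW_right (g : G 1) : Continuous (nW g) :=
  Continuous.comp (g := fun p : G 1 × X 1 => nW p.1 p.2) (f := fun x => (g, x))
    continuous_nW (continuous_const.prodMk continuous_id)

/-- Functions of the squared absolute value of the automorphy factor. -/
noncomputable def cF (F : ℝ → ℝ) (hF : ContinuousOn F (Set.Ioi 0)) (g : G 1) : C(X 1, ℂ) where
  toFun := fun x => ((F (nW g x) : ℝ) : ℂ)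
  continuous_toFun := Complex.continuous_ofReal.comp
    (hF.comp_continuous (continuous_nW_right g) fun x => nW_pos g x)

variable {F : ℝ → ℝ} (hF : ContinuousOn F (Set.Ioi 0))

theorem cF_apply (g : G 1) (x : X 1) : cF F hF g x = ((F (nW g x) : ℝ) : ℂ) := rfl

theorem cF_one : cF F hF 1 = algebraMap ℂ _ ((F 1 : ℝ) : ℂ) := by
  ext x
  rw [cF_apply, nW_one]
  rfl

theorem continuous_cF : Continuous fun g => cF F hF g := by
  refine ContinuousMap.continuous_of_continuous_uncurry _ ?_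
  exact Complex.continuous_ofReal.comp (hF.comp_continuous continuous_nW fun p => nW_pos _ _)

/-- The derivative of the logarithm of the Jacobian. -/
noncomputable def lam (Y : Fin 1 → Matrix (Fin 2) (Fin 2) ℝ) : C(X 1, ℂ) :=
  algebraMap ℂ _ ((Y 0 0 0 : ℂ) + ((Y 0 1 0 + Y 0 0 1 : ℝ) : ℂ) * Complex.I / 2) * star (U 0) +
    algebraMap ℂ _ ((Y 0 0 0 : ℂ) - ((Y 0 1 0 + Y 0 0 1 : ℝ) : ℂ) * Complex.I / 2) * U 0

theorem hasDerivAt_NN {Y : Fin 1 → Matrix (Fin 2) (Fin 2) ℝ} {γ : ℝ → G 1} (h : Curve Y γ) :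
    HasDerivAt (fun t => Wf (γ t) * star (Wf (γ t))) (-lam Y) 0 := by
  have hal := h.al_der 0
  have hbe' := (h.be_der 0).star
  let J : ℂ →L[ℝ] C(X 1, ℂ) := (Algebra.linearMap ℂ C(X 1, ℂ)).toContinuousLinearMap.restrictScalars ℝ
  have hJ : ∀ z, J z = algebraMap ℂ _ z := fun z => rfl
  have halJ := J.hasFDerivAt.comp_hasDerivAt (0 : ℝ) hal
  have hbeJ' := J.hasFDerivAt.comp_hasDerivAt (0 : ℝ) hbe'
  simp only [Function.comp_def, hJ] at halJ hbeJ'
  set A : ℂ := ((Y 0 1 0 - Y 0 0 1 : ℝ) : ℂ) * Complex.I / 2 with hA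
  set B : ℂ := (Y 0 0 0 : ℂ) + ((Y 0 1 0 + Y 0 0 1 : ℝ) : ℂ) * Complex.I / 2 with hB
  have hW : HasDerivAt (fun t => Wf (γ t)) (algebraMap ℂ _ A - algebraMap ℂ _ (conj B) * U 0) 0 :=
    halJ.fun_sub (hbeJ'.mul_const (U 0))
  have hWs : HasDerivAt (fun t => star (Wf (γ t)))
      (star (algebraMap ℂ _ A - algebraMap ℂ _ (conj B) * U 0)) 0 := HasDerivAt.star hW
  have hp := hW.fun_mul hWs
  refine hp.congr_deriv ?_
  have hconjA : conj A = -A := by
    rw [hA]
    simp only [map_div₀, map_mul, Complex.conj_ofReal, Complex.conj_I, map_ofNat]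
    ring
  have hconjB : conj B = (Y 0 0 0 : ℂ) - ((Y 0 1 0 + Y 0 0 1 : ℝ) : ℂ) * Complex.I / 2 := by
    rw [hB]
    simp only [map_add, map_div₀, map_mul, Complex.conj_ofReal, Complex.conj_I, map_ofNat]
    ring
  rw [lam, ← hB, ← hconjB, h.one, Wf_one, star_one, mul_one, one_mul, star_sub, star_mul,
    ← algebraMap_star_comm, ← algebraMap_star_comm]
  change algebraMap ℂ _ A - algebraMap ℂ _ (conj B) * U 0 + (algebraMap ℂ _ (conj A) -
    star (U 0) * algebraMap ℂ _ (conj (conj B))) = _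
  rw [hconjA, Complex.conj_conj, map_neg]
  ring

theorem hasDerivAt_cF {Y : Fin 1 → Matrix (Fin 2) (Fin 2) ℝ} {γ : ℝ → G 1} (h : Curve Y γ)
    {F' : ℝ} (hF' : HasDerivAt F F' 1) :
    HasDerivAt (fun t => cF F hF (γ t)) (algebraMap ℂ _ ((F' : ℝ) : ℂ) * (-lam Y)) 0 := by
  have hc : ContinuousOn (dslope F 1) (Set.Ioi 0) :=
    (continuousOn_dslope (Ioi_mem_nhds one_pos)).2 ⟨hF, hF'.differentiableAt⟩
  have h1 : ContinuousAt (fun t => cF (dslope F 1) hc (γ t)) 0 :=
    ((continuous_cF hc).continuousAt (x := γ 0)).comp h.continuousAt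
  have h2 : HasDerivAt (fun t => Wf (γ t) * star (Wf (γ t)) - 1) (-lam Y) 0 :=
    (hasDerivAt_NN h).sub_const 1
  have h3 := (hasDerivAt_mul_of_zero h1 h2 (by
    rw [h.one, Wf_one, star_one, mul_one, sub_self])).const_add (algebraMap ℂ _ ((F 1 : ℝ) : ℂ))
  have h4 : (fun t => algebraMap ℂ C(X 1, ℂ) ((F 1 : ℝ) : ℂ) + cF (dslope F 1) hc (γ t) *
      (Wf (γ t) * star (Wf (γ t)) - 1)) = fun t => cF F hF (γ t) := by
    funext t
    ext x
    change ((F 1 : ℝ) : ℂ) + ((dslope F 1 (nW (γ t) x) : ℝ) : ℂ) *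
      ((Wf (γ t) * star (Wf (γ t))) x - 1) = ((F (nW (γ t) x) : ℝ) : ℂ)
    rw [← nW_eq]
    have h5 := sub_smul_dslope F 1 (nW (γ t) x)
    rw [smul_eq_mul] at h5
    have h6 : F (nW (γ t) x) = F 1 + dslope F 1 (nW (γ t) x) * (nW (γ t) x - 1) := by linarith
    rw [h6]
    push_cast
    ring
  rw [h4] at h3
  refine h3.congr_deriv ?_
  rw [h.one, cF_one, dslope_same, hF'.deriv]

end Q4.HC
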