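import Pool.Agent.Q4.HCB.Glob

/-!
# The space of `K`-finite vectors
-/

open Filter Topology ComplexConjugate MeasureTheory

namespace Q4.HC

attribute [local instance] instMS' instHaar' instProb'

theorem be_rot {k : G 1} (hk : k ∈ KK 1) : be (k 0) = 0 := by
  have h := hk 0
  have hdet := det_SL (k 0)
  have h00 := congrFun (congrFun h 0) 0
  have h01 := congrFun (congrFun h 0) 1
  have h11 := congrFun (congrFun h 1) 1
  simp only [Matrix.mul_apply, Fin.sum_univ_two, Matrix.transpose_apply, Matrix.one_apply,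
    Fin.isValue, zero_ne_one, ↓reduceIte] at h00 h01 h11
  set a := (k 0 : Matrix (Fin 2) (Fin 2) ℝ) 0 0
  set b := (k 0 : Matrix (Fin 2) (Fin 2) ℝ) 0 1
  set c := (k 0 : Matrix (Fin 2) (Fin 2) ℝ) 1 0
  set d := (k 0 : Matrix (Fin 2) (Fin 2) ℝ) 1 1
  have hdet' : a * d - b * c = 1 := hdet
  have h1 : (a - d) ^ 2 + (b + c) ^ 2 = 0 := by nlinarith
  have h2 : a - d = 0 := by nlinarith [sq_nonneg (a - d), sq_nonneg (b + c)]
  have h3 : c + b = 0 := by nlinarith [sq_nonneg (a - d), sq_nonneg (b + c)]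
  change (((a - d : ℝ) : ℂ) + ((c + b : ℝ) : ℂ) * Complex.I) / 2 = 0
  rw [h2, h3]
  simp

theorem nW_rot {k : G 1} (hk : k ∈ KK 1) (x : X 1) : nW k x = 1 := by
  have h1 := be_rot hk
  have h2 := norm_al_be (k 0)
  rw [h1, norm_zero] at h2
  rw [nW, Wf_apply, h1, map_zero, zero_mul, sub_zero]
  linarith

theorem ph_rot {k : G 1} (hk : k ∈ KK 1) : ph k = 1 := by
  ext x
  rw [ph_apply, nW_rot hk]
  simp

theorem lJ_rot {k : G 1} (hk : k ∈ KK 1) : lJ k = 0 := by
  ext x
  rw [lJ_apply, nW_rot hk]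
  simp

/-- The character by which a rotation acts. -/
noncomputable def zet (k : G 1) : ℂ := conj (al (k 0)) / al (k 0)

theorem zet_ne (k : G 1) : zet k ≠ 0 := by
  have := al_ne (k 0)
  refine div_ne_zero ?_ this
  rw [Ne, map_eq_zero]
  exact this

theorem rep_rot {k : G 1} (hk : k ∈ KK 1) (m : Fin 1 → ℤ) :
    rep 1 k (chi m) = (zet k ^ (m 0)) • chi m := by
  have hz := zet_ne k
  have hpow : ∀ n : ℕ, rep 1 k (U1 ^ n) = (zet k ^ n) • U1 ^ n := by
    intro n
    induction n with
    | zero => rw [pow_zero, pow_zero, rep_one, one_smul]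
    | succ n ih =>
      have h1 := rep_U k 0
      rw [be_rot hk, map_zero, map_zero, zero_mul, sub_zero, sub_zero] at h1
      have h2 : rep 1 k U1 = zet k • U1 := by
        have h3 : algebraMap ℂ C(X 1, ℂ) (al (k 0)) * algebraMap ℂ _ (al (k 0))⁻¹ = 1 := by
          rw [← map_mul, mul_inv_cancel₀ (al_ne _), map_one]
        have hs : zet k • U1 = algebraMap ℂ C(X 1, ℂ) (zet k) * U1 := by
          ext x
          rfl
        rw [hs, zet, div_eq_mul_inv, map_mul]
        linear_combination (algebraMap ℂ C(X 1, ℂ) (al (k 0))⁻¹) * h1 - rep 1 k (U 0) * h3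
      rw [pow_succ, rep_mul, ih, h2, smul_mul_smul_comm, ← pow_succ, ← pow_succ]
  have hm := eq_single m
  obtain ⟨n, hn | hn⟩ := (m 0).eq_nat_or_neg
  · rw [hm, hn, ← U1_pow, Pi.single_eq_same, hpow, zpow_natCast]
  · rw [hm, hn, Pi.single_neg, Pi.neg_apply, Pi.single_eq_same, chi_neg, ← U1_pow, rep_star, hpow,
      star_smul, zpow_neg, zpow_natCast, ← inv_pow, star_pow]
    congr 2
    rw [zet]
    change conj (conj (al (k 0)) / al (k 0)) = _
    rw [map_div₀, Complex.conj_conj, inv_div]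

theorem Aop_rot {k : G 1} (hk : k ∈ KK 1) (m : Fin 1 → ℤ) :
    Aop k (FF (chi m)) = (zet k ^ (m 0)) • FF (chi m) := by
  rw [Aop_FF, ph_rot hk, one_mul, rep_rot hk, map_smul]

theorem Bop_rot {k : G 1} (hk : k ∈ KK 1) (x : Hs) : Bop k x = 0 := by
  have h := Bop_le k x
  rw [lJ_rot hk, norm_zero, zero_mul] at h
  exact norm_le_zero_iff.1 h

/-- The Fourier coefficients. -/
noncomputable def co (m : Fin 1 → ℤ) : Hs →L[ℂ] ℂ := innerSL ℂ (FF (chi m))

theorem co_chi (m n : Fin 1 → ℤ) : co m (FF (chi n)) = if n = m then 1 else 0 := by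
  change inner ℂ (FF (chi m)) (FF (chi n)) = _
  rw [inner_FF, ← chi_neg, ← chi_add, II_chi, ← sub_eq_add_neg]
  simp only [sub_eq_zero]

theorem co_rot {k : G 1} (hk : k ∈ KK 1) (m : Fin 1 → ℤ) (x : Hs) :
    co m (Aop k x) = zet k ^ (m 0) * co m x := by
  have h := ContinuousLinearMap.ext_on (f := co m ∘L Aop k) (g := (zet k ^ (m 0)) • co m)
    (s := Set.range fun n : Fin 1 → ℤ => FF (chi n)) (by
      have h1 := FFjj_dense
      refine h1.mono ?_
      rintro _ ⟨v, rfl⟩
      change FF (jj 1 v) ∈ _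
      rw [jj, Finsupp.linearCombination_apply, Finsupp.sum, map_sum]
      refine Submodule.sum_mem _ fun n _ => ?_
      rw [map_smul]
      exact Submodule.smul_mem _ _ (Submodule.subset_span ⟨n, rfl⟩)) (by
      rintro _ ⟨n, rfl⟩
      change co m (Aop k (FF (chi n))) = zet k ^ (m 0) * co m (FF (chi n))
      rw [Aop_rot hk, map_smul, co_chi, smul_eq_mul]
      split_ifs with hnm
      · rw [hnm]
      · ring)
  exact DFunLike.congr_fun h x

theorem eq_of_finite {x : Hs} {S : Finset (Fin 1 → ℤ)} (h : ∀ m, m ∉ S → co m x = 0) :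
    x = ∑ m ∈ S, co m x • FF (chi m) := by
  have h1 := (UnitAddTorus.mFourierBasis (d := Fin 1)).hasSum_repr x
  have h2 : ∀ m, (UnitAddTorus.mFourierBasis (d := Fin 1)).repr x m = co m x := by
    intro m
    rw [HilbertBasis.repr_apply_apply, UnitAddTorus.coe_mFourierBasis]
    rfl
  rw [UnitAddTorus.coe_mFourierBasis] at h1
  have h3 := hasSum_sum_of_ne_finset_zero (f := fun m => co m x • FF (chi m)) (s := S)
    (L := SummationFilter.unconditional _) (fun m hm => by rw [h m hm, zero_smul])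
  refine h1.unique ?_
  convert! h3 using 2 with m
  rw [h2]
  rfl

/-- The rotation by one radian. -/
noncomputable def rot1 : G 1 := fun _ =>
  ⟨!![Real.cos 1, -Real.sin 1; Real.sin 1, Real.cos 1], by
    rw [Matrix.det_fin_two_of]
    have := Real.sin_sq_add_cos_sq 1
    nlinarith⟩

theorem rot1_mem : rot1 ∈ KK 1 := by
  intro i
  have h := Real.sin_sq_add_cos_sq 1
  change !![Real.cos 1, -Real.sin 1; Real.sin 1, Real.cos 1] *
    (!![Real.cos 1, -Real.sin 1; Real.sin 1, Real.cos 1]).transpose = 1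
  ext a b
  fin_cases a <;> fin_cases b
  · simp [Matrix.mul_apply, Fin.sum_univ_two]
    nlinarith
  · simp [Matrix.mul_apply, Fin.sum_univ_two]
    ring
  · simp [Matrix.mul_apply, Fin.sum_univ_two]
    ring
  · simp [Matrix.mul_apply, Fin.sum_univ_two]
    nlinarith

theorem zet_rot1 : zet rot1 = Complex.exp (-2 * Complex.I) := by
  have h1 : al (rot1 0) = Complex.exp Complex.I := by
    rw [al]
    change (((Real.cos 1 + Real.cos 1 : ℝ) : ℂ) + ((Real.sin 1 - -Real.sin 1 : ℝ) : ℂ) *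
      Complex.I) / 2 = _
    have h2 := Complex.exp_mul_I 1
    rw [one_mul] at h2
    rw [h2]
    push_cast
    ring
  rw [zet, h1, ← Complex.exp_conj, Complex.conj_I, ← Complex.exp_sub]
  congr 1
  ring

theorem zet_inj {m n : ℤ} (h : zet rot1 ^ m = zet rot1 ^ n) : m = n := by
  rw [zet_rot1, ← Complex.exp_int_mul, ← Complex.exp_int_mul, Complex.exp_eq_exp_iff_exists_int] at h
  obtain ⟨k, hk⟩ := h
  have h1 : ((n : ℂ) - m) * (2 * Complex.I) = (k * Real.pi) * (2 * Complex.I) := by
    linear_combination hk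
  have h2 : ((n : ℂ) - m) = k * Real.pi :=
    mul_right_cancel₀ (mul_ne_zero two_ne_zero Complex.I_ne_zero) h1
  have h3 : ((n : ℝ) - m) = k * Real.pi := by exact_mod_cast h2
  by_contra hne
  have hk0 : (k : ℝ) ≠ 0 := by
    intro h0
    rw [h0, zero_mul] at h3
    apply hne
    have : (n : ℝ) = m := by linarith
    exact_mod_cast this.symm
  apply irrational_pi
  refine ⟨((n - m : ℤ) : ℚ) / k, ?_⟩
  push_cast
  rw [h3]
  field_simp

theorem fin_aux {E : Type} [NormedAddCommGroup E] [NormedSpace ℂ E] {T : E →L[ℂ] E}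
    {W : Submodule ℂ E} [FiniteDimensional ℂ W] (hW : ∀ y ∈ W, T y ∈ W) {x : E} (hx : x ∈ W)
    (c : (Fin 1 → ℤ) → E →L[ℂ] ℂ) (hc : ∀ m y, c m (T y) = zet rot1 ^ (m 0) * c m y) :
    {m | c m x ≠ 0}.Finite := by
  let R : W →ₗ[ℂ] W := T.toLinearMap.restrict hW
  have hR : ∀ y : W, ((R y : W) : E) = T y := fun y => rfl
  have h1 : ∀ (m : Fin 1 → ℤ) (i : ℕ) (y : W), c m ((R ^ i) y : W) = (zet rot1 ^ (m 0)) ^ i * c m y := by
    intro m i
    induction i with
    | zero => intro y; simp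
    | succ i ih =>
      intro y
      rw [pow_succ, Module.End.mul_apply, ih, hR, hc, pow_succ]
      ring
  have h2 : ∀ (m : Fin 1 → ℤ) (P : Polynomial ℂ) (y : W),
      c m ((Polynomial.aeval R P) y : W) = P.eval (zet rot1 ^ (m 0)) * c m y := by
    intro m P y
    rw [Polynomial.aeval_eq_sum_range, Polynomial.eval_eq_sum_range, LinearMap.sum_apply,
      Submodule.coe_sum, map_sum, Finset.sum_mul]
    refine Finset.sum_congr rfl fun i _ => ?_
    rw [LinearMap.smul_apply, Submodule.coe_smul, map_smul, h1, smul_eq_mul]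
    ring
  have h3 : ∀ m, c m x ≠ 0 → zet rot1 ^ (m 0) ∈ (R.charpoly.roots.toFinset : Set ℂ) := by
    intro m hm
    have h4 := h2 m R.charpoly ⟨x, hx⟩
    rw [LinearMap.aeval_self_charpoly, LinearMap.zero_apply, Submodule.coe_zero, map_zero] at h4
    have h5 := (mul_eq_zero.1 h4.symm).resolve_right hm
    rw [Finset.mem_coe, Multiset.mem_toFinset, Polynomial.mem_roots (R.charpoly_monic.ne_zero)]
    exact h5
  refine Set.Finite.subset (Set.Finite.preimage (f := fun m : Fin 1 → ℤ => zet rot1 ^ (m 0)) ?_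
    (Finset.finite_toSet R.charpoly.roots.toFinset)) (fun m hm => h3 m hm)
  intro m _ n _ h
  have h4 := zet_inj h
  rw [eq_single m, eq_single n, h4]

theorem jj_sum (S : Finset (Fin 1 → ℤ)) (a : (Fin 1 → ℤ) → ℂ) :
    FF (jj 1 (∑ m ∈ S, Finsupp.single m (a m))) = ∑ m ∈ S, a m • FF (chi m) := by
  rw [map_sum, map_sum]
  refine Finset.sum_congr rfl fun m _ => ?_
  rw [jj_single, map_smul]

theorem kfinite (ε : ℂ) (x : EE) : IsKFinite (pie ε) x ↔ x ∈ Set.range (jE ε) := by
  constructor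
  · rintro ⟨W, hWf, hx, hW⟩
    have h1 : {m | (co m ∘L ContinuousLinearMap.fst ℂ Hs Hs) x ≠ 0}.Finite :=
      fin_aux (T := pie ε rot1) (fun y hy => hW rot1 rot1_mem y hy) hx
        (fun m => co m ∘L ContinuousLinearMap.fst ℂ Hs Hs) (fun m y => co_rot rot1_mem m y.1)
    have h2 : {m | (co m ∘L ContinuousLinearMap.snd ℂ Hs Hs) x ≠ 0}.Finite :=
      fin_aux (T := pie ε rot1) (fun y hy => hW rot1 rot1_mem y hy) hx
        (fun m => co m ∘L ContinuousLinearMap.snd ℂ Hs Hs) (fun m y => by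
          change co m (Aop rot1 y.2 + ε • Bop rot1 y.1) = _
          rw [Bop_rot rot1_mem, smul_zero, add_zero]
          exact co_rot rot1_mem m y.2)
    have h3 : ∀ y : Hs, {m | co m y ≠ 0}.Finite → ∃ v, FF (jj 1 v) = y := by
      intro y hy
      refine ⟨∑ m ∈ hy.toFinset, Finsupp.single m (co m y), ?_⟩
      rw [jj_sum]
      refine (eq_of_finite fun m hm => ?_).symm
      by_contra hne
      exact hm (hy.mem_toFinset.2 hne)
    obtain ⟨v, hv⟩ := h3 x.1 h1
    obtain ⟨v', hv'⟩ := h3 x.2 h2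
    refine ⟨(v, v' - ε • LL v), ?_⟩
    rw [jE_apply]
    simp only [sub_add_cancel, hv, hv']
  · rintro ⟨u, rfl⟩
    set v := u.2 + ε • LL u.1 with hv
    set S : Finset (Fin 1 → ℤ) := u.1.support ∪ v.support with hS
    refine ⟨Submodule.span ℂ (((fun m => ((FF (chi m), 0) : EE)) '' (S : Set (Fin 1 → ℤ))) ∪
      ((fun m => ((0, FF (chi m)) : EE)) '' (S : Set (Fin 1 → ℤ)))), ?_, ?_, ?_⟩
    · exact FiniteDimensional.span_of_finite ℂ
        ((S.finite_toSet.image _).union (S.finite_toSet.image _))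
    · have h1 : ∀ w : V 1, w.support ⊆ S → ∀ (L : Hs →ₗ[ℂ] EE) (N : Submodule ℂ EE),
          (∀ m ∈ S, L (FF (chi m)) ∈ N) → L (FF (jj 1 w)) ∈ N := by
        intro w hw L N hN
        rw [jj, Finsupp.linearCombination_apply, Finsupp.sum, map_sum, map_sum]
        refine Submodule.sum_mem _ fun m hm => ?_
        rw [map_smul, map_smul]
        exact Submodule.smul_mem _ _ (hN m (hw hm))
      have h2 : jE ε u = LinearMap.inl ℂ Hs Hs (FF (jj 1 u.1)) + LinearMap.inr ℂ Hs Hs (FF (jj 1 v)) := by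
        rw [jE_apply, ← hv, LinearMap.inl_apply, LinearMap.inr_apply, Prod.mk_add_mk, add_zero,
          zero_add]
      rw [h2]
      refine Submodule.add_mem _ (h1 u.1 Finset.subset_union_left _ _ fun m hm => ?_)
        (h1 v Finset.subset_union_right _ _ fun m hm => ?_)
      · exact Submodule.subset_span (Or.inl ⟨m, hm, rfl⟩)
      · exact Submodule.subset_span (Or.inr ⟨m, hm, rfl⟩)
    · intro k hk y hy
      induction hy using Submodule.span_induction with
      | mem y hy =>
        rcases hy with ⟨m, hm, rfl⟩ | ⟨m, hm, rfl⟩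
        · have h1 : pie ε k ((FF (chi m), 0) : EE) = (zet k ^ (m 0)) • ((FF (chi m), 0) : EE) := by
            rw [pie_apply]
            change ((Aop k (FF (chi m)), Aop k 0 + ε • Bop k (FF (chi m))) : EE) = _
            rw [Bop_rot hk, Aop_rot hk, map_zero, smul_zero, add_zero, Prod.smul_mk, smul_zero]
          rw [h1]
          exact Submodule.smul_mem _ _ (Submodule.subset_span (Or.inl ⟨m, hm, rfl⟩))
        · have h1 : pie ε k ((0, FF (chi m)) : EE) = (zet k ^ (m 0)) • ((0, FF (chi m)) : EE) := by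
            rw [pie_apply]
            change ((Aop k 0, Aop k (FF (chi m)) + ε • Bop k 0) : EE) = _
            rw [Bop_rot hk, Aop_rot hk, map_zero, smul_zero, add_zero, Prod.smul_mk, smul_zero]
          rw [h1]
          exact Submodule.smul_mem _ _ (Submodule.subset_span (Or.inr ⟨m, hm, rfl⟩))
      | zero => rw [map_zero]; exact Submodule.zero_mem _
      | add y z _ _ hy hz => rw [map_add]; exact Submodule.add_mem _ hy hz
      | smul c y _ hy => rw [map_smul]; exact Submodule.smul_mem _ _ hy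

end Q4.HC
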