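import Pool.Agent.Q4.HCB.Half

/-!
# The half-density representation on the square integrable functions on the circle
-/

open Filter Topology ComplexConjugate MeasureTheory

namespace Q4.HC

attribute [local instance] instMS' instHaar' instProb'

/-- The Hilbert space of square integrable functions. -/
noncomputable abbrev Hs : Type := Lp ℂ 2 (volume : Measure (X 1))

/-- The inclusion of the continuous functions. -/
noncomputable def FF : C(X 1, ℂ) →L[ℂ] Hs := ContinuousMap.toLp 2 (volume : Measure (X 1)) ℂ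

theorem FF_dense : DenseRange FF := ContinuousMap.toLp_denseRange ℂ _ ℂ (by norm_num)

theorem inner_FF (f g : C(X 1, ℂ)) : inner ℂ (FF f) (FF g) = II (g * star f) := by
  rw [FF, ContinuousMap.inner_toLp, II_apply]
  rfl

theorem norm_FF_sq (f : C(X 1, ℂ)) : ((‖FF f‖ : ℝ) : ℂ) ^ 2 = II (f * star f) := by
  rw [← inner_FF, inner_self_eq_norm_sq_to_K]
  rfl

theorem norm_FF_eq {f g : C(X 1, ℂ)} (h : II (f * star f) = II (g * star g)) : ‖FF f‖ = ‖FF g‖ := by
  rw [← norm_FF_sq, ← norm_FF_sq] at h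
  have h1 : ‖FF f‖ ^ 2 = ‖FF g‖ ^ 2 := by exact_mod_cast h
  exact (sq_eq_sq₀ (norm_nonneg _) (norm_nonneg _)).1 h1

theorem norm_FF_mul_le (k f : C(X 1, ℂ)) : ‖FF (k * f)‖ ≤ ‖k‖ * ‖FF f‖ := by
  refine Lp.norm_le_mul_norm_of_ae_le_mul ?_
  filter_upwards [ContinuousMap.coeFn_toLp (E := ℂ) (p := 2) (𝕜 := ℂ) (volume : Measure (X 1)) (k * f),
    ContinuousMap.coeFn_toLp (E := ℂ) (p := 2) (𝕜 := ℂ) (volume : Measure (X 1)) f] with x h1 h2
  rw [FF, h1, h2, ContinuousMap.mul_apply, norm_mul]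
  exact mul_le_mul_of_nonneg_right (k.norm_coe_le_norm x) (norm_nonneg _)

/-- Extension of an operator to the Hilbert space. -/
noncomputable def ext (A : C(X 1, ℂ) →ₗ[ℂ] C(X 1, ℂ)) : Hs →L[ℂ] Hs :=
  (FF.toLinearMap ∘ₗ A).extendOfNorm FF.toLinearMap

theorem ext_FF {A : C(X 1, ℂ) →ₗ[ℂ] C(X 1, ℂ)} {c : ℝ} (h : ∀ f, ‖FF (A f)‖ ≤ c * ‖FF f‖)
    (f : C(X 1, ℂ)) : ext A (FF f) = FF (A f) :=
  LinearMap.extendOfNorm_eq (f := FF.toLinearMap ∘ₗ A) (e := FF.toLinearMap) FF_dense ⟨c, h⟩ f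

theorem ext_le {A : C(X 1, ℂ) →ₗ[ℂ] C(X 1, ℂ)} {c : ℝ} (h : ∀ f, ‖FF (A f)‖ ≤ c * ‖FF f‖)
    (x : Hs) : ‖ext A x‖ ≤ c * ‖x‖ := by
  have hc : IsClosed {x : Hs | ‖ext A x‖ ≤ c * ‖x‖} :=
    isClosed_le (ext A).continuous.norm (continuous_const.mul continuous_norm)
  refine FF_dense.induction_on (p := fun x => ‖ext A x‖ ≤ c * ‖x‖) x hc fun f => ?_
  rw [ext_FF h]
  exact h f

theorem ext_unique {S T : Hs →L[ℂ] Hs} (h : ∀ f, S (FF f) = T (FF f)) (x : Hs) : S x = T x :=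
  FF_dense.induction_on (p := fun x => S x = T x) x (isClosed_eq S.continuous T.continuous) h

/-- The square root of the Jacobian. -/
noncomputable def ph (g : G 1) : C(X 1, ℂ) :=
  cF (fun y => (Real.sqrt y)⁻¹) (Real.continuous_sqrt.continuousOn.inv₀ fun _ hy =>
    (Real.sqrt_pos.2 hy).ne') g

/-- The logarithm of the Jacobian. -/
noncomputable def lJ (g : G 1) : C(X 1, ℂ) :=
  cF (fun y => -Real.log y) (Real.continuousOn_log.mono (fun _ hy => (ne_of_gt hy))).neg g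

theorem ph_apply (g : G 1) (x : X 1) : ph g x = (((Real.sqrt (nW g x))⁻¹ : ℝ) : ℂ) := rfl

theorem lJ_apply (g : G 1) (x : X 1) : lJ g x = ((-Real.log (nW g x) : ℝ) : ℂ) := rfl

theorem ph_mul (g h : G 1) : ph (g * h) = ph g * rep 1 g (ph h) := by
  ext x
  change ph (g * h) x = ph g x * ph h (actX g⁻¹ x)
  rw [ph_apply, ph_apply, ph_apply, nW_mul, Real.sqrt_mul (nW_pos g x).le, mul_inv]
  push_cast
  rfl

theorem lJ_mul (g h : G 1) : lJ (g * h) = lJ g + rep 1 g (lJ h) := by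
  ext x
  change lJ (g * h) x = lJ g x + lJ h (actX g⁻¹ x)
  rw [lJ_apply, lJ_apply, lJ_apply, nW_mul, Real.log_mul (nW_pos _ _).ne' (nW_pos _ _).ne']
  push_cast
  ring

theorem ph_one : ph 1 = 1 := by
  rw [ph, cF_one]
  simp

theorem lJ_one : lJ 1 = 0 := by
  rw [lJ, cF_one]
  simp

theorem star_ph (g : G 1) : star (ph g) = ph g := by
  ext x
  exact Complex.conj_ofReal _

theorem continuous_ph : Continuous ph := continuous_cF _

theorem continuous_lJ : Continuous lJ := continuous_cF _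

theorem hasDerivAt_ph {Y : Fin 1 → Matrix (Fin 2) (Fin 2) ℝ} {γ : ℝ → G 1} (h : Curve Y γ) :
    HasDerivAt (fun t => ph (γ t)) (algebraMap ℂ _ (1 / 2) * lam Y) 0 := by
  have h1 : HasDerivAt (fun y : ℝ => (Real.sqrt y)⁻¹) (-(1 / (2 * Real.sqrt 1)) / (Real.sqrt 1) ^ 2)
      1 := (Real.hasDerivAt_sqrt one_ne_zero).fun_inv (by simp)
  refine (hasDerivAt_cF _ h h1).congr_deriv ?_
  rw [Real.sqrt_one]
  have : (((-(1 / (2 * 1)) / 1 ^ 2 : ℝ) : ℝ) : ℂ) = -(1 / 2) := by norm_num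
  rw [this, map_neg]
  ring

theorem hasDerivAt_lJ {Y : Fin 1 → Matrix (Fin 2) (Fin 2) ℝ} {γ : ℝ → G 1} (h : Curve Y γ) :
    HasDerivAt (fun t => lJ (γ t)) (lam Y) 0 := by
  have h1 : HasDerivAt (fun y : ℝ => -Real.log y) (-(1 : ℝ)⁻¹) 1 :=
    (Real.hasDerivAt_log one_ne_zero).fun_neg
  refine (hasDerivAt_cF _ h h1).congr_deriv ?_
  have : ((-(1 : ℝ)⁻¹ : ℝ) : ℂ) = -1 := by norm_num
  rw [this, map_neg, map_one]
  ring

/-- The Jacobian and the Poisson kernel. -/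
theorem PP_mul (g : G 1) : rep 1 g⁻¹ (ph g * ph g) * PP (g 0) = 1 := by
  have h1 : PP (g 0) * (Wf g⁻¹ * star (Wf g⁻¹)) = 1 := by
    have h2 : Wf g⁻¹ = algebraMap ℂ _ (conj (al (g 0))) + algebraMap ℂ _ (conj (be (g 0))) * U1 := by
      have h3 : al (g⁻¹ 0) = conj (al (g 0)) := al_inv _
      have h4 : be (g⁻¹ 0) = -be (g 0) := be_inv _
      rw [Wf, h3, h4]
      simp only [map_neg]
      ring
    have h5 := pa_mul (g 0)
    rw [← h2] at h5
    have h6 := congrArg star h5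
    rw [star_mul, star_one] at h6
    rw [PP]
    linear_combination (star (Wf g⁻¹) * star (pa (g 0))) * h5 + h6
  have h2 : rep 1 g⁻¹ (ph g * ph g) = Wf g⁻¹ * star (Wf g⁻¹) := by
    ext x
    rw [← nW_eq]
    change ph g (actX g⁻¹⁻¹ x) * ph g (actX g⁻¹⁻¹ x) = _
    rw [ph_apply, ← Complex.ofReal_mul]
    congr 1
    have h3 := nW_mul g⁻¹ g x
    rw [inv_mul_cancel, nW_one] at h3
    have h4 := nW_pos g⁻¹ x
    have h5 := nW_pos g (actX g⁻¹⁻¹ x)
    rw [← mul_inv, Real.mul_self_sqrt h5.le]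
    exact inv_eq_of_mul_eq_one_left h3.symm
  rw [h2, mul_comm]
  exact h1

/-- The half-density representation on continuous functions. -/
noncomputable def A0 (g : G 1) : C(X 1, ℂ) →ₗ[ℂ] C(X 1, ℂ) :=
  LinearMap.mulLeft ℂ (ph g) ∘ₗ (rep 1 g).toLinearMap

/-- Its deformation. -/
noncomputable def B0 (g : G 1) : C(X 1, ℂ) →ₗ[ℂ] C(X 1, ℂ) :=
  LinearMap.mulLeft ℂ (lJ g) ∘ₗ A0 g

theorem A0_apply (g : G 1) (f : C(X 1, ℂ)) : A0 g f = ph g * rep 1 g f := rfl

theorem B0_apply (g : G 1) (f : C(X 1, ℂ)) : B0 g f = lJ g * (ph g * rep 1 g f) := rfl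

theorem norm_A0 (g : G 1) (f : C(X 1, ℂ)) : ‖FF (A0 g f)‖ = ‖FF f‖ := by
  apply norm_FF_eq
  have h1 : A0 g f * star (A0 g f) = rep 1 g (rep 1 g⁻¹ (ph g * ph g) * (f * star f)) := by
    have h2 : ∀ k : C(X 1, ℂ), rep 1 g (rep 1 g⁻¹ k) = k := by
      intro k
      have h3 := DFunLike.congr_fun (map_mul (rep 1) g g⁻¹) k
      rw [mul_inv_cancel, map_one] at h3
      exact h3.symm
    rw [rep_mul, h2, rep_mul, rep_star, A0_apply, star_mul, star_ph]
    ring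
  rw [h1, II_rep]
  have h4 := PP_mul g
  have h5 : rep 1 g⁻¹ (ph g * ph g) * (f * star f) * PP (g 0) = f * star f := by
    linear_combination (f * star f) * h4
  rw [h5]

theorem A0_mul (g h : G 1) (f : C(X 1, ℂ)) : A0 (g * h) f = A0 g (A0 h f) := by
  rw [A0_apply, A0_apply, A0_apply, ph_mul, rep_mul, map_mul]
  change ph g * (rep 1 g) (ph h) * (rep 1 g) ((rep 1 h) f) = _
  ring

theorem B0_mul (g h : G 1) (f : C(X 1, ℂ)) : B0 (g * h) f = B0 g (A0 h f) + A0 g (B0 h f) := by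
  have h1 : ∀ g f, B0 g f = lJ g * A0 g f := fun g f => rfl
  rw [h1, h1, h1, A0_mul, lJ_mul, add_mul]
  congr 1
  rw [A0_apply g (lJ h * A0 h f), A0_apply g (A0 h f), rep_mul]
  ring

theorem norm_A0_le (g : G 1) (f : C(X 1, ℂ)) : ‖FF (A0 g f)‖ ≤ 1 * ‖FF f‖ := by
  rw [one_mul, norm_A0]

theorem norm_B0_le (g : G 1) (f : C(X 1, ℂ)) : ‖FF (B0 g f)‖ ≤ ‖lJ g‖ * ‖FF f‖ := by
  refine (norm_FF_mul_le _ _).trans ?_
  rw [norm_A0]

/-- The unitary representation. -/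
noncomputable def Aop (g : G 1) : Hs →L[ℂ] Hs := ext (A0 g)

/-- The off-diagonal part of the deformation. -/
noncomputable def Bop (g : G 1) : Hs →L[ℂ] Hs := ext (B0 g)

theorem Aop_FF (g : G 1) (f : C(X 1, ℂ)) : Aop g (FF f) = FF (ph g * rep 1 g f) :=
  ext_FF (norm_A0_le g) f

theorem Bop_FF (g : G 1) (f : C(X 1, ℂ)) : Bop g (FF f) = FF (lJ g * (ph g * rep 1 g f)) :=
  ext_FF (norm_B0_le g) f

theorem Aop_le (g : G 1) (x : Hs) : ‖Aop g x‖ ≤ ‖x‖ := by
  have := ext_le (norm_A0_le g) x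
  rwa [one_mul] at this

theorem Bop_le (g : G 1) (x : Hs) : ‖Bop g x‖ ≤ ‖lJ g‖ * ‖x‖ := ext_le (norm_B0_le g) x

theorem Aop_mul (g h : G 1) (x : Hs) : Aop (g * h) x = Aop g (Aop h x) := by
  refine ext_unique (S := Aop (g * h)) (T := Aop g ∘L Aop h) (fun f => ?_) x
  change Aop (g * h) (FF f) = Aop g (Aop h (FF f))
  have h1 : ∀ g f, Aop g (FF f) = FF (A0 g f) := fun g f => ext_FF (norm_A0_le g) f
  rw [h1, h1, h1, A0_mul]

theorem Bop_mul (g h : G 1) (x : Hs) : Bop (g * h) x = Bop g (Aop h x) + Aop g (Bop h x) := by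
  refine ext_unique (S := Bop (g * h)) (T := Bop g ∘L Aop h + Aop g ∘L Bop h) (fun f => ?_) x
  change Bop (g * h) (FF f) = Bop g (Aop h (FF f)) + Aop g (Bop h (FF f))
  have h1 : ∀ g f, Aop g (FF f) = FF (A0 g f) := fun g f => ext_FF (norm_A0_le g) f
  have h2 : ∀ g f, Bop g (FF f) = FF (B0 g f) := fun g f => ext_FF (norm_B0_le g) f
  rw [h1, h2, h2, h2, h1, B0_mul, map_add]

theorem Aop_one (x : Hs) : Aop 1 x = x := by
  refine ext_unique (S := Aop 1) (T := ContinuousLinearMap.id ℂ Hs) (fun f => ?_) x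
  rw [Aop_FF, ph_one, map_one, one_mul]
  rfl

theorem Bop_one (x : Hs) : Bop 1 x = 0 := by
  refine ext_unique (S := Bop 1) (T := 0) (fun f => ?_) x
  rw [Bop_FF, lJ_one, zero_mul, map_zero]
  rfl

theorem continuous_ops {T : G 1 → Hs →L[ℂ] Hs} {c : G 1 → ℝ} (hc : Continuous c)
    (h : ∀ g x, ‖T g x‖ ≤ c g * ‖x‖) (h0 : ∀ f, Continuous fun g => T g (FF f)) (x : Hs) :
    Continuous fun g => T g x := by
  rw [continuous_iff_continuousAt]
  intro g₀
  rw [Metric.continuousAt_iff']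
  intro ε hε
  -- a local bound
  set C : ℝ := |c g₀| + 1 with hC
  have hCpos : 0 < C := by positivity
  have h1 : ∀ᶠ g in 𝓝 g₀, c g < C :=
    (hc.continuousAt.eventually_lt continuousAt_const (by
      rw [hC]
      have := le_abs_self (c g₀)
      linarith))
  obtain ⟨f, hf⟩ := FF_dense.exists_dist_lt x (ε := ε / (3 * C)) (by positivity)
  have h2 : ∀ᶠ g in 𝓝 g₀, dist (T g (FF f)) (T g₀ (FF f)) < ε / 3 :=
    Metric.continuousAt_iff'.1 ((h0 f).continuousAt (x := g₀)) (ε / 3) (by positivity)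
  have hg₀ : c g₀ < C := by
    rw [hC]
    have := le_abs_self (c g₀)
    linarith
  have h3 : ∀ g, c g < C → dist (T g x) (T g (FF f)) < ε / 3 := by
    intro g hg
    rw [dist_eq_norm, ← map_sub]
    have h4 : ‖x - FF f‖ < ε / (3 * C) := by rwa [← dist_eq_norm]
    calc ‖T g (x - FF f)‖ ≤ c g * ‖x - FF f‖ := h g _
      _ ≤ C * ‖x - FF f‖ := mul_le_mul_of_nonneg_right hg.le (norm_nonneg _)
      _ < C * (ε / (3 * C)) := by gcongr
      _ = ε / 3 := by field_simp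
  filter_upwards [h1, h2] with g hg1 hg2
  have h5 := h3 g hg1
  have h6 := h3 g₀ hg₀
  rw [dist_comm] at h6
  calc dist (T g x) (T g₀ x) ≤ dist (T g x) (T g (FF f)) + dist (T g (FF f)) (T g₀ (FF f)) +
        dist (T g₀ (FF f)) (T g₀ x) := dist_triangle4 _ _ _ _
    _ < ε / 3 + ε / 3 + ε / 3 := by linarith
    _ = ε := by ring

theorem continuous_Aop (x : Hs) : Continuous fun g => Aop g x := by
  refine continuous_ops (c := fun _ => 1) continuous_const (fun g x => ?_) (fun f => ?_) x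
  · rw [one_mul]
    exact Aop_le g x
  · have h1 : Continuous fun g => FF (ph g * rep 1 g f) :=
      FF.continuous.comp (continuous_ph.mul (continuous_rep f))
    simp only [Aop_FF]
    exact h1

theorem continuous_Bop (x : Hs) : Continuous fun g => Bop g x := by
  refine continuous_ops (c := fun g => ‖lJ g‖) continuous_lJ.norm (fun g x => Bop_le g x)
    (fun f => ?_) x
  have h1 : Continuous fun g => FF (lJ g * (ph g * rep 1 g f)) :=
    FF.continuous.comp (continuous_lJ.mul (continuous_ph.mul (continuous_rep f)))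
  simp only [Bop_FF]
  exact h1

end Q4.HC
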