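import Pool.Agent.Q4.HCB.L2
import Pool.Agent.Q4.HC.NotCont

/-!
# The module: two copies of the half-density principal series
-/

open Filter Topology ComplexConjugate

namespace Q4.HC

/-- The operators `u^m ↦ (m + s / 2) u^(m + s)`. -/
noncomputable def TH (s : ℤ) : Module.End ℂ (V 1) :=
  Finsupp.linearCombination ℂ fun m => (Finsupp.single (m + Pi.single 0 s) ((m 0 : ℂ) + s / 2) : V 1)

theorem TH_single (s : ℤ) (m : Fin 1 → ℤ) (c : ℂ) :
    TH s (Finsupp.single m c) = Finsupp.single (m + Pi.single 0 s) (c * ((m 0 : ℂ) + s / 2)) := by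
  rw [TH, Finsupp.linearCombination_single, Finsupp.smul_single, smul_eq_mul]

theorem TH_TH (a b : ℤ) (m : Fin 1 → ℤ) (c : ℂ) :
    TH a (TH b (Finsupp.single m c)) =
      Finsupp.single (m + Pi.single 0 (b + a)) (c * ((m 0 : ℂ) + b / 2) * ((m 0 : ℂ) + b + a / 2)) := by
  rw [TH_single, TH_single, add_assoc, ← Pi.single_add]
  simp

theorem TH_bracket (a b : ℤ) :
    TH a * TH b = TH b * TH a + ((b - a : ℤ) : ℂ) • TH (a + b) := by
  refine Finsupp.lhom_ext fun m c => ?_
  change TH a (TH b (Finsupp.single m c)) = TH b (TH a (Finsupp.single m c)) +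
    ((b - a : ℤ) : ℂ) • TH (a + b) (Finsupp.single m c)
  rw [TH_TH, TH_TH, TH_single, Finsupp.smul_single, smul_eq_mul, add_comm b a, ← Finsupp.single_add]
  congr 1
  push_cast
  ring

theorem c10 (v : V 1) : TH 1 (TH 0 v) = TH 0 (TH 1 v) - TH 1 v := by
  have h := LinearMap.congr_fun (TH_bracket 1 0) v
  change TH 1 (TH 0 v) = TH 0 (TH 1 v) + ((0 - 1 : ℤ) : ℂ) • TH (1 + 0) v at h
  rw [h]
  norm_num
  module

theorem c1m (v : V 1) : TH 1 (TH (-1) v) = TH (-1) (TH 1 v) - (2 : ℂ) • TH 0 v := by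
  have h := LinearMap.congr_fun (TH_bracket 1 (-1)) v
  change TH 1 (TH (-1) v) = TH (-1) (TH 1 v) + ((-1 - 1 : ℤ) : ℂ) • TH (1 + -1) v at h
  rw [h]
  norm_num
  module

theorem c0m (v : V 1) : TH 0 (TH (-1) v) = TH (-1) (TH 0 v) - TH (-1) v := by
  have h := LinearMap.congr_fun (TH_bracket 0 (-1)) v
  change TH 0 (TH (-1) v) = TH (-1) (TH 0 v) + ((-1 - 0 : ℤ) : ℂ) • TH (0 + -1) v at h
  rw [h]
  norm_num
  module

/-- The operator `h`. -/
noncomputable def hh : Module.End ℂ (V 1) := TH 1 - TH (-1)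

/-- The operator `e`. -/
noncomputable def he : Module.End ℂ (V 1) :=
  Complex.I • (TH 0 - (1 / 2 : ℂ) • TH (-1) - (1 / 2 : ℂ) • TH 1)

/-- The operator `f`. -/
noncomputable def hf : Module.End ℂ (V 1) :=
  Complex.I • (-TH 0 - (1 / 2 : ℂ) • TH (-1) - (1 / 2 : ℂ) • TH 1)

theorem hh_apply (v : V 1) : hh v = TH 1 v - TH (-1) v := rfl

theorem he_apply (v : V 1) : he v =
    Complex.I • (TH 0 v - (1 / 2 : ℂ) • TH (-1) v - (1 / 2 : ℂ) • TH 1 v) := rfl

theorem hf_apply (v : V 1) : hf v =
    Complex.I • (-TH 0 v - (1 / 2 : ℂ) • TH (-1) v - (1 / 2 : ℂ) • TH 1 v) := rfl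

theorem lie2_he (v : V 1) : hh (he v) - he (hh v) = (2 : ℂ) • he v := by
  simp only [hh_apply, he_apply, map_sub, map_smul, c10, c1m, c0m]
  module

theorem lie2_hf (v : V 1) : hh (hf v) - hf (hh v) = (-2 : ℂ) • hf v := by
  simp only [hh_apply, hf_apply, map_sub, map_smul, map_neg, c10, c1m, c0m]
  module

theorem lie2_ef (v : V 1) : he (hf v) - hf (he v) = hh v := by
  have h1 : he (hf v) - hf (he v) = (Complex.I * Complex.I) • (-hh v) := by
    simp only [hh_apply, he_apply, hf_apply, map_sub, map_smul, map_neg, c10, c1m, c0m]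
    module
  rw [h1, Complex.I_mul_I, neg_one_smul, neg_neg]

/-- The module: two copies. -/
abbrev VV : Type := V 1 × V 1

/-- The action on two copies. -/
noncomputable def DD : Ops 1 VV where
  h := fun _ => LinearMap.prodMap hh hh
  e := fun _ => LinearMap.prodMap he he
  f := fun _ => LinearMap.prodMap hf hf

theorem DD_h (i : Fin 1) (u : VV) : DD.h i u = (hh u.1, hh u.2) := rfl

theorem DD_e (i : Fin 1) (u : VV) : DD.e i u = (he u.1, he u.2) := rfl

theorem DD_f (i : Fin 1) (u : VV) : DD.f i u = (hf u.1, hf u.2) := rfl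

theorem lie_action2 : DD.IsLieAction where
  lin_h i := (LinearMap.prodMap hh hh).isLinear
  lin_e i := (LinearMap.prodMap he he).isLinear
  lin_f i := (LinearMap.prodMap hf hf).isLinear
  he i v := by
    simp only [DD_h, DD_e, Prod.mk_sub_mk, lie2_he]
    rfl
  hf i v := by
    simp only [DD_h, DD_f, Prod.mk_sub_mk, lie2_hf]
    rfl
  ef i v := by
    simp only [DD_h, DD_e, DD_f, Prod.mk_sub_mk, lie2_ef]
  comm i k hik v := absurd (Subsingleton.elim i k) hik

theorem f_sub_e2 (i : Fin 1) (u : VV) :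
    DD.f i u - DD.e i u = ((-2 * Complex.I) • TH 0 u.1, (-2 * Complex.I) • TH 0 u.2) := by
  rw [DD_f, DD_e, Prod.mk_sub_mk, hf_apply, he_apply, hf_apply, he_apply]
  congr 1
  · module
  · module

theorem TH_zero_apply (v : V 1) (m : Fin 1 → ℤ) : TH 0 v m = m 0 * v m := by
  have h : Finsupp.lapply m ∘ₗ TH 0 = (m 0 : ℂ) • (Finsupp.lapply m : V 1 →ₗ[ℂ] ℂ) := by
    refine Finsupp.lhom_ext fun n c => ?_
    change TH 0 (Finsupp.single n c) m = (m 0 : ℂ) • (Finsupp.single n c : V 1) m
    rw [TH_single, Pi.single_zero, add_zero, Finsupp.single_apply, Finsupp.single_apply]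
    split_ifs with hnm
    · rw [hnm, smul_eq_mul, mul_comm]
      simp
    · rw [smul_zero]
  exact LinearMap.congr_fun h v

theorem weight_aux (k : Fin 1 → ℤ) (v : V 1) :
    ((-2 * Complex.I) • TH 0 v = ((k 0 : ℂ) * Complex.I) • v) ↔ ∀ m, v m ≠ 0 → k 0 = -2 * m 0 := by
  constructor
  · intro h m hm
    have h2 := DFunLike.congr_fun h m
    simp only [Finsupp.smul_apply, TH_zero_apply, smul_eq_mul] at h2
    have h3 : ((k 0 : ℂ) + 2 * m 0) * (Complex.I * v m) = 0 := by linear_combination -h2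
    have h4 : (k 0 : ℂ) + 2 * m 0 = 0 :=
      (mul_eq_zero.1 h3).resolve_right (mul_ne_zero Complex.I_ne_zero hm)
    have h5 : k 0 + 2 * m 0 = 0 := by exact_mod_cast h4
    linarith
  · intro h
    ext m
    simp only [Finsupp.smul_apply, TH_zero_apply, smul_eq_mul]
    by_cases hm : v m = 0
    · rw [hm]
      ring
    · rw [h m hm]
      push_cast
      ring

theorem isWeight2_iff (k : Fin 1 → ℤ) (u : VV) :
    DD.IsWeight k u ↔ (∀ m, u.1 m ≠ 0 → k 0 = -2 * m 0) ∧ (∀ m, u.2 m ≠ 0 → k 0 = -2 * m 0) := by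
  rw [← weight_aux, ← weight_aux]
  constructor
  · intro h
    have h1 := h 0
    rw [f_sub_e2] at h1
    exact ⟨congrArg Prod.fst h1, congrArg Prod.snd h1⟩
  · intro h i
    rw [Subsingleton.elim i 0, f_sub_e2]
    exact Prod.ext h.1 h.2

theorem single_support (m : Fin 1 → ℤ) (c : ℂ) : ∀ n, (Finsupp.single m c : V 1) n ≠ 0 →
    -2 * m 0 = -2 * n 0 := by
  intro n hn
  rw [Finsupp.single_apply] at hn
  have : m = n := by
    by_contra h
    rw [if_neg h] at hn
    exact hn rfl
  rw [this]

theorem isWeight2_single (m : Fin 1 → ℤ) (a b : ℂ) :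
    DD.IsWeight (fun i => -2 * m i) (Finsupp.single m a, Finsupp.single m b) :=
  (isWeight2_iff _ _).2 ⟨single_support m a, single_support m b⟩

theorem TH_mem {W : Submodule ℂ VV}
    (hW : ∀ i, ∀ v ∈ W, DD.h i v ∈ W ∧ DD.e i v ∈ W ∧ DD.f i v ∈ W)
    {u : VV} (hu : u ∈ W) : (TH 1 u.1, TH 1 u.2) ∈ W ∧ (TH (-1) u.1, TH (-1) u.2) ∈ W := by
  obtain ⟨h1, h2, h3⟩ := hW 0 u hu
  rw [DD_h] at h1
  rw [DD_e] at h2
  rw [DD_f] at h3
  have hs : ∀ v : V 1, Complex.I • (he v + hf v) = TH (-1) v + TH 1 v := by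
    intro v
    have h4 : Complex.I • (he v + hf v) =
        (Complex.I * Complex.I) • (-(TH (-1) v + TH 1 v)) := by
      simp only [he_apply, hf_apply]
      module
    rw [h4, Complex.I_mul_I, neg_one_smul, neg_neg]
  have e1 : ∀ v : V 1, TH 1 v = (1 / 2 : ℂ) • (hh v + Complex.I • (he v + hf v)) := by
    intro v
    rw [hs, hh_apply]
    module
  have e2 : ∀ v : V 1, TH (-1) v = (1 / 2 : ℂ) • (-hh v + Complex.I • (he v + hf v)) := by
    intro v
    rw [hs, hh_apply]
    module
  rw [e1, e1, e2, e2]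
  exact ⟨W.smul_mem (1 / 2 : ℂ) (W.add_mem h1 (W.smul_mem Complex.I (W.add_mem h2 h3))),
    W.smul_mem (1 / 2 : ℂ) (W.add_mem (W.neg_mem h1) (W.smul_mem Complex.I (W.add_mem h2 h3)))⟩

theorem gen_aux {W : Submodule ℂ VV} {a b : ℂ}
    (hW : ∀ i, ∀ v ∈ W, DD.h i v ∈ W ∧ DD.e i v ∈ W ∧ DD.f i v ∈ W)
    (h0 : ((Finsupp.single 0 a, Finsupp.single 0 b) : VV) ∈ W) (n : ℤ) :
    ((Finsupp.single (Pi.single 0 n) a, Finsupp.single (Pi.single 0 n) b) : VV) ∈ W := by
  have hstep : ∀ (n s : ℤ), (n : ℂ) + s / 2 ≠ 0 →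
      ((TH s (Finsupp.single (Pi.single 0 n) a), TH s (Finsupp.single (Pi.single 0 n) b)) : VV) ∈ W →
      ((Finsupp.single (Pi.single 0 (n + s)) a, Finsupp.single (Pi.single 0 (n + s)) b) : VV) ∈ W := by
    intro n s hs h
    rw [TH_single, TH_single, ← Pi.single_add, Pi.single_eq_same] at h
    have h3 := W.smul_mem ((n : ℂ) + s / 2)⁻¹ h
    rw [Prod.smul_mk, Finsupp.smul_single, Finsupp.smul_single, smul_eq_mul, smul_eq_mul] at h3
    have h4 : ∀ z : ℂ, ((n : ℂ) + s / 2)⁻¹ * (z * ((n : ℂ) + s / 2)) = z := by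
      intro z
      rw [mul_comm z, inv_mul_cancel_left₀ hs]
    rw [h4, h4] at h3
    exact h3
  have hne : ∀ n s : ℤ, (s = 1 ∨ s = -1) → (n : ℂ) + s / 2 ≠ 0 := by
    intro n s hs h
    have h1 : ((2 * n + s : ℤ) : ℂ) = 0 := by
      push_cast
      linear_combination 2 * h
    have h2 : 2 * n + s = 0 := by exact_mod_cast h1
    omega
  induction n using Int.induction_on with
  | zero =>
    rw [Pi.single_zero]
    exact h0
  | succ i ih =>
    exact hstep i 1 (hne _ _ (Or.inl rfl)) (TH_mem hW ih).1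
  | pred i ih =>
    rw [sub_eq_add_neg]
    exact hstep (-(i : ℤ)) (-1) (hne _ _ (Or.inr rfl)) (TH_mem hW ih).2

theorem eq_single (m : Fin 1 → ℤ) : m = Pi.single 0 (m 0) := by
  funext i
  rw [Subsingleton.elim i 0, Pi.single_eq_same]

theorem harish_chandra2 : DD.IsHarishChandra where
  toIsLieAction := lie_action2
  span := by
    rw [eq_top_iff]
    rintro ⟨u, v⟩ _
    have h1 : ∀ u : V 1, ((u, 0) : VV) ∈ Submodule.span ℂ {v : VV | ∃ k, DD.IsWeight k v} := by
      intro u
      induction u using Finsupp.induction_linear with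
      | zero => exact Submodule.zero_mem _
      | add f g hf hg =>
        have := Submodule.add_mem _ hf hg
        rwa [Prod.mk_add_mk, add_zero] at this
      | single m c =>
        refine Submodule.subset_span ⟨fun i => -2 * m i, ?_⟩
        have := isWeight2_single m c 0
        rwa [Finsupp.single_zero] at this
    have h2 : ∀ u : V 1, ((0, u) : VV) ∈ Submodule.span ℂ {v : VV | ∃ k, DD.IsWeight k v} := by
      intro u
      induction u using Finsupp.induction_linear with
      | zero => exact Submodule.zero_mem _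
      | add f g hf hg =>
        have := Submodule.add_mem _ hf hg
        rwa [Prod.mk_add_mk, add_zero] at this
      | single m c =>
        refine Submodule.subset_span ⟨fun i => -2 * m i, ?_⟩
        have := isWeight2_single m 0 c
        rwa [Finsupp.single_zero] at this
    have := Submodule.add_mem _ (h1 u) (h2 v)
    rwa [Prod.mk_add_mk, add_zero, zero_add] at this
  admissible k := by
    let m₀ : Fin 1 → ℤ := fun _ => -(k 0) / 2
    have h0 : ∀ v : V 1, (∀ m, v m ≠ 0 → k 0 = -2 * m 0) → v = v m₀ • (Finsupp.single m₀ 1 : V 1) := by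
      intro v hv
      rw [Finsupp.smul_single, smul_eq_mul, mul_one]
      ext m
      rw [Finsupp.single_apply]
      split_ifs with h
      · rw [h]
      · by_contra hne
        apply h
        funext i
        have := hv m hne
        rw [Subsingleton.elim i 0]
        change -(k 0) / 2 = m 0
        omega
    have h1 : Submodule.span ℂ {v : VV | DD.IsWeight k v} ≤
        Submodule.span ℂ {((Finsupp.single m₀ 1, 0) : VV), ((0, Finsupp.single m₀ 1) : VV)} := by
      rw [Submodule.span_le]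
      rintro ⟨u, v⟩ huv
      obtain ⟨hu, hv⟩ := (isWeight2_iff k _).1 huv
      have h2 : ((u, v) : VV) = u m₀ • ((Finsupp.single m₀ 1, 0) : VV) +
          v m₀ • ((0, Finsupp.single m₀ 1) : VV) := by
        rw [Prod.smul_mk, Prod.smul_mk, Prod.mk_add_mk, smul_zero, smul_zero, add_zero, zero_add,
          ← h0 u hu, ← h0 v hv]
      rw [h2]
      exact Submodule.add_mem _ (Submodule.smul_mem _ _ (Submodule.subset_span (by simp)))
        (Submodule.smul_mem _ _ (Submodule.subset_span (by simp)))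
    have : FiniteDimensional ℂ (Submodule.span ℂ {((Finsupp.single m₀ 1, 0) : VV),
        ((0, Finsupp.single m₀ 1) : VV)}) :=
      FiniteDimensional.span_of_finite ℂ (by simp)
    exact Submodule.finiteDimensional_of_le h1
  fin_gen := by
    classical
    refine ⟨{((Finsupp.single 0 1, 0) : VV), ((0, Finsupp.single 0 1) : VV)}, fun W hS hW => ?_⟩
    have h1 : ∀ u : V 1, ((u, 0) : VV) ∈ W := by
      intro u
      induction u using Finsupp.induction_linear with
      | zero => exact W.zero_mem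
      | add f g hf hg =>
        have := W.add_mem hf hg
        rwa [Prod.mk_add_mk, add_zero] at this
      | single m c =>
        have h2 := gen_aux (a := 1) (b := 0) hW (by
          rw [Finsupp.single_zero]
          exact hS _ (by simp)) (m 0)
        rw [Finsupp.single_zero, ← eq_single] at h2
        have h3 := W.smul_mem c h2
        rwa [Prod.smul_mk, smul_zero, Finsupp.smul_single, smul_eq_mul, mul_one] at h3
    have h2 : ∀ u : V 1, ((0, u) : VV) ∈ W := by
      intro u
      induction u using Finsupp.induction_linear with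
      | zero => exact W.zero_mem
      | add f g hf hg =>
        have := W.add_mem hf hg
        rwa [Prod.mk_add_mk, add_zero] at this
      | single m c =>
        have h2 := gen_aux (a := 0) (b := 1) hW (by
          rw [Finsupp.single_zero]
          exact hS _ (by simp)) (m 0)
        rw [Finsupp.single_zero, ← eq_single] at h2
        have h3 := W.smul_mem c h2
        rwa [Prod.smul_mk, smul_zero, Finsupp.smul_single, smul_eq_mul, mul_one] at h3
    rw [eq_top_iff]
    rintro ⟨u, v⟩ _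
    have := W.add_mem (h1 u) (h2 v)
    rwa [Prod.mk_add_mk, add_zero, zero_add] at this

end Q4.HC
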